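import Mathlib

namespace Pool.Agent.Lib.MP_dd8e80_al

variable {A M : Type*} [Monoid M] (g : A → M)

def ev (w : List A) : M := (w.map g).prod

@[simp] lemma ev_nil : ev g [] = 1 := rfl
@[simp] lemma ev_append (u v : List A) : ev g (u ++ v) = ev g u * ev g v := by simp [ev]
@[simp] lemma ev_cons (a : A) (v : List A) : ev g (a :: v) = g a * ev g v := by simp [ev]

def Small (n : ℕ) (s : M) : Prop :=
  ∃ p q r : List A, p.length ≤ n ∧ q.length ≤ n ∧ r.length ≤ n ∧ ev g p * s * ev g q = ev g r

def Geo (w : List A) : Prop := ∀ w', ev g w' = ev g w → w.length ≤ w'.length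

def Red (n K : ℕ) (y : List A) : Prop :=
  ∀ a f b, y = a ++ f ++ b → Small g n (ev g f) → f.length ≤ K

def Sepd (n : ℕ) (x : List A) : Prop :=
  ∀ W1 Y W2, x = W1 ++ Y ++ W2 → 2 ≤ Y.length → ∃ P P' Y1 Y2 Q' Q, W1 = P ++ P' ∧
    Y = Y1 ++ Y2 ∧ W2 = Q' ++ Q ∧ Small g n (ev g (P' ++ Y1)) ∧ Small g n (ev g (Y2 ++ Q'))

def Cut (c : ℕ) (u1 u2 v1 v2 : List A) : Prop :=
  (∃ α β : List A, α.length ≤ c ∧ β.length ≤ c ∧ ev g u1 * ev g α = ev g v1 * ev g β) ∧
  (∃ p q : List A, p.length ≤ c ∧ q.length ≤ c ∧ ev g p * ev g u2 = ev g q * ev g v2)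

def Piece (c n : ℕ) : Prop :=
  ∀ u1 a u2 v, v ≠ [] → ev g (u1 ++ a :: u2) = ev g v → ∃ P P' Q' Q v1 v2, u1 = P ++ P' ∧
    u2 = Q' ++ Q ∧ v = v1 ++ v2 ∧ Small g n (ev g (P' ++ a :: Q')) ∧ Sepd g n (P' ++ a :: Q') ∧
    Cut g c P (P' ++ a :: Q' ++ Q) v1 v2 ∧ Cut g c (P ++ (P' ++ a :: Q')) Q v1 v2

variable {g}

lemma Small.mono {n m : ℕ} {s : M} (h : Small g n s) (hnm : n ≤ m) : Small g m s := by
  obtain ⟨p, q, r, h1, h2, h3, h4⟩ := h
  exact ⟨p, q, r, by omega, by omega, by omega, h4⟩

lemma small_of_len {n : ℕ} {w : List A} (h : w.length ≤ n) : Small g n (ev g w) :=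
  ⟨[], [], w, by simp, by simp, h, by simp⟩

lemma Small.drop_left {n m : ℕ} {p : List A} {s : M} (h : Small g n (ev g p * s))
    (hp : p.length ≤ m) : Small g (n + m) s := by
  obtain ⟨p', q, r, h1, h2, h3, h4⟩ := h
  exact ⟨p' ++ p, q, r, by simp; omega, by omega, by omega, by rw [← h4]; simp [mul_assoc]⟩

lemma Small.drop_right {n m : ℕ} {q : List A} {s : M} (h : Small g n (s * ev g q))
    (hq : q.length ≤ m) : Small g (n + m) s := by
  obtain ⟨p, q', r, h1, h2, h3, h4⟩ := h
  exact ⟨p, q ++ q', r, by omega, by simp; omega, by omega, by rw [← h4]; simp [mul_assoc]⟩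

lemma Red.mid {n K : ℕ} {a f b : List A} (h : Red g n K (a ++ f ++ b)) : Red g n K f := by
  intro a' f' b' e hs
  exact h (a ++ a') f' (b' ++ b) (by simp [e]) hs

lemma Red.left {n K : ℕ} {f b : List A} (h : Red g n K (f ++ b)) : Red g n K f :=
  Red.mid (a := []) (by simpa using h)

lemma Red.right {n K : ℕ} {a f : List A} (h : Red g n K (a ++ f)) : Red g n K f :=
  Red.mid (b := []) (by simpa using h)

lemma exists_geo (w : List A) : ∃ w', ev g w' = ev g w ∧ Geo g w' ∧ w'.length ≤ w.length := by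
  classical
  have hex : ∃ n, ∃ w', ev g w' = ev g w ∧ w'.length = n := ⟨_, w, rfl, rfl⟩
  obtain ⟨w', h1, h2⟩ := Nat.find_spec hex
  have hmin : ∀ w'', ev g w'' = ev g w → w'.length ≤ w''.length := fun w'' h => by
    rw [h2]; exact Nat.find_min' hex ⟨w'', h, rfl⟩
  exact ⟨w', h1, fun w'' h => hmin w'' (h.trans h1), hmin w rfl⟩

lemma Geo.mid {a f b : List A} (h : Geo g (a ++ f ++ b)) : Geo g f := by
  intro w' hw'
  have := h (a ++ w' ++ b) (by simp [hw'])
  simp at this
  omega

lemma Geo.left {f b : List A} (h : Geo g (f ++ b)) : Geo g f :=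
  Geo.mid (a := []) (by simpa using h)

lemma Geo.right {a f : List A} (h : Geo g (a ++ f)) : Geo g f :=
  Geo.mid (b := []) (by simpa using h)

variable [Finite A] [IsCancelMul M]

lemma small_finite (n : ℕ) : {s : M | Small g n s}.Finite := by
  classical
  let F : List A × List A × List A → M := fun t =>
    if h : ∃ s, ev g t.1 * s * ev g t.2.1 = ev g t.2.2 then h.choose else 1
  have hfin : ({l : List A | l.length ≤ n} ×ˢ {l : List A | l.length ≤ n} ×ˢ
      {l : List A | l.length ≤ n}).Finite :=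
    (List.finite_length_le A n).prod ((List.finite_length_le A n).prod (List.finite_length_le A n))
  refine (hfin.image F).subset ?_
  rintro s ⟨p, q, r, h1, h2, h3, h4⟩
  refine ⟨(p, q, r), ⟨h1, h2, h3⟩, ?_⟩
  have hex : ∃ s, ev g p * s * ev g q = ev g r := ⟨s, h4⟩
  simp only [F, dif_pos hex]
  have := hex.choose_spec.trans h4.symm
  exact mul_left_cancel (mul_right_cancel this)

omit [Finite A] [IsCancelMul M] in
lemma bound_of_finite {T : Set M} (hT : T.Finite) :
    ∃ L, ∀ w, ev g w ∈ T → ∃ w', ev g w' = ev g w ∧ w'.length ≤ L := by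
  classical
  let f : M → ℕ := fun s => if h : ∃ w, ev g w = s then h.choose.length else 0
  obtain ⟨L, hL⟩ := (hT.image f).bddAbove
  refine ⟨L, fun w hw => ?_⟩
  have hex : ∃ w', ev g w' = ev g w := ⟨w, rfl⟩
  refine ⟨hex.choose, hex.choose_spec, ?_⟩
  have := hL ⟨ev g w, hw, rfl⟩
  simpa only [f, dif_pos hex] using this

lemma exists_short (n : ℕ) :
    ∃ L, ∀ w, Small g n (ev g w) → ∃ w', ev g w' = ev g w ∧ w'.length ≤ L :=
  bound_of_finite (small_finite n)

variable (g) in
noncomputable def Lb (n : ℕ) : ℕ := (exists_short (g := g) n).choose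

lemma Lb_short {n : ℕ} {w : List A} (h : Small g n (ev g w)) :
    ∃ w', ev g w' = ev g w ∧ w'.length ≤ Lb g n := (exists_short (g := g) n).choose_spec w h

lemma Geo.le_Lb {n : ℕ} {w : List A} (hw : Geo g w) (h : Small g n (ev g w)) :
    w.length ≤ Lb g n := by
  obtain ⟨w', h1, h2⟩ := Lb_short h
  exact le_trans (hw w' h1) h2

lemma Small.append_right {n l : ℕ} {f h : List A} (hf : Small g n (ev g f)) (hh : h.length ≤ l) :
    Small g (Lb g n + l) (ev g (f ++ h)) := by
  obtain ⟨f', h1, h2⟩ := Lb_short hf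
  have : ev g (f ++ h) = ev g (f' ++ h) := by simp [h1]
  rw [this]
  exact small_of_len (by simp; omega)

omit [Finite A] [IsCancelMul M] in
lemma exists_nonempty_rep (n : ℕ) : ∃ n1, ∀ W r : List A, W ≠ [] → r.length ≤ n →
    ev g W = ev g r → ∃ r', r' ≠ [] ∧ r'.length ≤ n1 ∧ ev g W = ev g r' := by
  by_cases h : ∃ w : List A, w ≠ [] ∧ ev g w = 1
  · obtain ⟨w, hw, hw1⟩ := h
    refine ⟨n + w.length, fun W r _ hr he => ⟨r ++ w, by simp [hw], by simp; omega, ?_⟩⟩
    simp [hw1, he]
  · refine ⟨n, fun W r hW hr he => ⟨r, ?_, hr, he⟩⟩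
    rintro rfl
    exact h ⟨W, hW, by simpa using he⟩

omit [Finite A] [IsCancelMul M] in
lemma sep {c n0 : ℕ} (hP : Piece g c n0) (n : ℕ) : ∃ n', n0 ≤ n' ∧ ∀ W1 Y W2 r : List A,
    r.length ≤ n → ev g (W1 ++ Y ++ W2) = ev g r → 2 ≤ Y.length →
    ∃ P P' Y1 Y2 Q' Q, W1 = P ++ P' ∧ Y = Y1 ++ Y2 ∧ W2 = Q' ++ Q ∧
      Small g n0 (ev g (P' ++ Y1)) ∧
      (Small g n0 (ev g (Y2 ++ Q')) ∨ (Q = [] ∧ Small g n' (ev g (Y2 ++ Q')))) := by
  obtain ⟨n1, hn1⟩ := exists_nonempty_rep (g := g) n
  refine ⟨n0 + c + n1, by omega, ?_⟩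
  intro W1 Y W2 r hr he hY
  obtain ⟨a, Y', rfl⟩ : ∃ a Y', Y = a :: Y' := by
    cases Y with
    | nil => simp at hY
    | cons a Y' => exact ⟨a, Y', rfl⟩
  obtain ⟨r', hr0, hr1, hr2⟩ := hn1 _ r (by simp) hr he
  obtain ⟨P, P', Q', Q, v1, v2, e1, e2, e3, s1, s2, -, -, p, q, hp, hq, hc⟩ :=
    hP W1 a (Y' ++ W2) r' hr0 (by rw [← hr2]; simp)
  rcases List.append_eq_append_iff.1 e2 with ⟨t, h1, h2⟩ | ⟨t, h1, h2⟩
  · obtain ⟨P0, P1, Y1, Y2, Q1, Q0, f1, f2, f3, f4, f5⟩ :=
      s2 P' (a :: Y') t (by simp [h1]) hY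
    exact ⟨P ++ P0, P1, Y1, Y2, Q1, Q0 ++ Q, by simp [e1, f1], f2, by simp [h2, f3], f4, Or.inl f5⟩
  · refine ⟨P, P', a :: Q', t, W2, [], e1, by simp [h1], by simp, s1, Or.inr ⟨rfl, ?_⟩⟩
    rw [← h2]
    have hv : v2.length ≤ n1 := by
      have := congrArg List.length e3
      simp at this
      omega
    exact ⟨p, [], q ++ v2, by omega, by simp, by simp; omega, by simpa using hc⟩

lemma lemL {c n0 : ℕ} (hP : Piece g c n0) (K n : ℕ) :
    ∃ K', ∀ y, Red g n0 K y → Small g n (ev g y) → y.length ≤ K' := by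
  classical
  obtain ⟨n', hn', hsep⟩ := sep hP n
  set N := n0 + n + (n + Lb g (n' + n)) with hN
  have hwin : ∀ y ya Y yb : List A, Red g n0 K y → Small g n (ev g y) → y = ya ++ Y ++ yb →
      Y.length = 2 * K + 2 → ∃ Y1 Y2, Y = Y1 ++ Y2 ∧ Small g N (ev g (ya ++ Y1)) := by
    intro y ya Y yb hR ⟨p, q, r, hp, hq, hr, he⟩ hy hY
    obtain ⟨P, P', Y1, Y2, Q', Q, e1, e2, e3, s1, s2⟩ :=
      hsep (p ++ ya) Y (yb ++ q) r hr (by rw [← he, hy]; simp [mul_assoc]) (by omega)
    refine ⟨Y1, Y2, e2, ?_⟩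
    have hlen : Y1.length + Y2.length = 2 * K + 2 := by rw [← hY, e2]; simp
    have fromRight : Small g (n' + n) (ev g (Y2 ++ yb)) → Small g N (ev g (ya ++ Y1)) := by
      intro hs
      obtain ⟨w', h1, h2⟩ := Lb_short hs
      refine ⟨p, w' ++ q, r, by omega, by simp; omega, by omega, ?_⟩
      rw [← he, hy, e2, ev_append g w', h1]
      simp [mul_assoc]
    by_cases hK : K < Y1.length
    · rcases List.append_eq_append_iff.1 e1 with ⟨t, h1, h2⟩ | ⟨t, h1, h2⟩
      · exfalso
        have := hR t (P' ++ Y1) (Y2 ++ yb) (by simp [hy, h2, e2]) s1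
        simp at this
        omega
      · have ht : t.length ≤ n := by
          have := congrArg List.length h1
          simp at this
          omega
        rw [h2, List.append_assoc, ev_append] at s1
        exact (s1.drop_left ht).mono (by omega)
    · have hK2 : K < Y2.length := by omega
      rcases List.append_eq_append_iff.1 e3 with ⟨t, h1, h2⟩ | ⟨t, h1, h2⟩
      · have ht : t.length ≤ n := by
          have := congrArg List.length h2
          simp at this
          omega
        have s3 : Small g n' (ev g (Y2 ++ Q')) := by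
          rcases s2 with s2 | s2
          · exact s2.mono hn'
          · exact s2.2
        rw [h1, ← List.append_assoc, ev_append] at s3
        exact fromRight (s3.drop_right ht)
      · rcases s2 with s2 | s2
        · exfalso
          have := hR (ya ++ Y1) (Y2 ++ Q') t (by simp [hy, h1, e2]) s2
          simp at this
          omega
        · have ht : t = [] := by
            have := congrArg List.length h2
            rw [s2.1] at this
            simp at this
            exact List.eq_nil_of_length_eq_zero (by omega)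
          have : yb = Q' := by simp [h1, ht]
          rw [this] at fromRight
          exact fromRight (s2.2.mono (by omega))
  set F := (small_finite (g := g) N).toFinset with hF
  refine ⟨(F.card + 1) * (3 * K + 3), fun y hR hs => ?_⟩
  by_contra hlong
  push Not at hlong
  have hcut : ∀ t, t < F.card + 1 → ∃ m, t * (3 * K + 3) ≤ m ∧ m ≤ t * (3 * K + 3) + (2 * K + 2) ∧
      Small g N (ev g (y.take m)) := by
    intro t ht
    have hb : t * (3 * K + 3) + (3 * K + 3) ≤ (F.card + 1) * (3 * K + 3) := by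
      rw [← add_one_mul]; exact Nat.mul_le_mul_right _ ht
    obtain ⟨Y1, Y2, e, hsm⟩ := hwin y (y.take (t * (3 * K + 3)))
      ((y.drop (t * (3 * K + 3))).take (2 * K + 2))
      ((y.drop (t * (3 * K + 3))).drop (2 * K + 2)) hR hs
      (by rw [List.append_assoc, List.take_append_drop, List.take_append_drop])
      (by simp; omega)
    have hl : Y1.length ≤ 2 * K + 2 := by
      have := congrArg List.length e
      simp at this
      omega
    refine ⟨t * (3 * K + 3) + Y1.length, by omega, by omega, ?_⟩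
    have : y.take (t * (3 * K + 3) + Y1.length) = y.take (t * (3 * K + 3)) ++ Y1 := by
      rw [List.take_add]
      congr 1
      have e2 : y.drop (t * (3 * K + 3)) = Y1 ++ (Y2 ++ (y.drop (t * (3 * K + 3))).drop (2 * K + 2)) := by
        rw [← List.append_assoc, ← e, List.take_append_drop]
      rw [e2]
      simp
    rw [this]
    exact hsm
  choose! m hm1 hm2 hm3 using hcut
  have hlt : ∀ s t, s < t → t < F.card + 1 → ev g (y.take (m s)) ≠ ev g (y.take (m t)) := by
    intro s t hst ht heq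
    have hs' : s < F.card + 1 := by omega
    have hb : s * (3 * K + 3) + (3 * K + 3) ≤ t * (3 * K + 3) := by
      rw [← add_one_mul]; exact Nat.mul_le_mul_right _ hst
    have hb2 : t * (3 * K + 3) + (3 * K + 3) ≤ (F.card + 1) * (3 * K + 3) := by
      rw [← add_one_mul]; exact Nat.mul_le_mul_right _ ht
    have h1 := hm1 t ht
    have h2 := hm2 s hs'
    have h3 := hm2 t ht
    obtain ⟨d, hd⟩ : ∃ d, m t = m s + d := ⟨m t - m s, by omega⟩
    rw [hd, List.take_add, ev_append] at heq
    have h1' : ev g ((y.drop (m s)).take d) = 1 := by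
      have : ev g (y.take (m s)) * 1 = ev g (y.take (m s)) * ev g ((y.drop (m s)).take d) := by
        simpa using heq
      exact (mul_left_cancel this).symm
    have := hR (y.take (m s)) ((y.drop (m s)).take d) ((y.drop (m s)).drop d)
      (by rw [List.append_assoc, List.take_append_drop, List.take_append_drop])
      (by rw [h1']; exact ⟨[], [], [], by simp, by simp, by simp, by simp⟩)
    simp at this
    omega
  have hcard := Finset.card_le_card_of_injOn (s := Finset.range (F.card + 1)) (t := F)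
    (fun t => ev g (y.take (m t)))
    (fun t ht => by
      simp only [Finset.coe_range, Set.mem_Iio] at ht
      simpa [hF] using hm3 t ht)
    (fun s hs t ht h => by
      simp only [Finset.coe_range, Set.mem_Iio] at hs ht
      rcases lt_trichotomy s t with h1 | h1 | h1
      · exact absurd h (hlt s t h1 ht)
      · exact h1
      · exact absurd h.symm (hlt t s h1 hs))
  simp at hcard

lemma local_global {c n0 : ℕ} (hP : Piece g c n0) (E : ℕ) :
    ∃ m', ∀ w, (∀ a f b, w = a ++ f ++ b → Small g n0 (ev g f) → f.length ≤ m' → f.length ≤ E) →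
      Red g n0 E w := by
  obtain ⟨K', hK'⟩ := lemL hP E (n0 + 1)
  refine ⟨K' + 1, fun w hw => ?_⟩
  have : ∀ k, ∀ a f b, w = a ++ f ++ b → f.length = k → Small g n0 (ev g f) → f.length ≤ E := by
    intro k
    induction k using Nat.strong_induction_on with
    | _ k ih =>
      intro a f b e hk hs
      apply hw a f b e hs
      rcases List.eq_nil_or_concat f with rfl | ⟨f', x, rfl⟩
      · simp
      · simp only [List.concat_eq_append] at *
        have hr : Red g n0 E f' := by
          intro a' f'' b' e' hs'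
          refine ih f''.length ?_ (a ++ a') f'' (b' ++ [x] ++ b) (by simp [e, e']) rfl hs'
          rw [← hk, e']
          simp
          omega
        rw [ev_append] at hs
        have := hK' f' hr (hs.drop_right (m := 1) (by simp))
        simp
        omega
  intro a f b e hs
  exact this _ a f b e rfl hs

lemma glue {c n0 : ℕ} (hP : Piece g c n0) (E : ℕ) :
    ∃ m', ∀ U w w' : List A, m' ≤ w.length → Red g n0 E (U ++ w) → Red g n0 E (w ++ w') →
      Red g n0 E (U ++ w ++ w') := by
  obtain ⟨m', hm'⟩ := local_global hP E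
  refine ⟨m', fun U w w' hw h1 h2 => hm' _ ?_⟩
  intro a f b e hs hf
  rw [List.append_assoc, List.append_assoc] at e
  rcases List.append_eq_append_iff.1 e with ⟨t, e1, e2⟩ | ⟨t, e1, e2⟩
  · exact h2 t f b (by simp [e2]) hs
  · rw [← List.append_assoc] at e2
    rcases List.append_eq_append_iff.1 e2 with ⟨s, e3, e4⟩ | ⟨s, e3, e4⟩
    · exact h1 a f s (by simp [e1, e3]) hs
    · have hl := congrArg List.length e3
      simp at hl
      have hs0 : s = [] := List.eq_nil_of_length_eq_zero (by omega)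
      subst hs0
      exact h1 a f [] (by simp [e1, e3]) hs

lemma chord {c n0 : ℕ} (hP : Piece g c n0) : ∃ n1, ∀ y y1 y2 : List A, Geo g (y1 ++ y2) →
    Small g n0 (ev g (y ++ (y1 ++ y2))) → ∃ z z', y = z ++ z' ∧ Small g n1 (ev g (z' ++ y1)) := by
  obtain ⟨n', hn', hsep⟩ := sep hP n0
  refine ⟨1 + (Lb g (n0 + n0) + Lb g (n' + n0)), ?_⟩
  rintro y y1 y2 hG ⟨p, q, r, hp, hq, hr, he⟩
  by_cases h2 : 2 ≤ y1.length
  swap
  · exact ⟨y, [], by simp, small_of_len (by simp; omega)⟩
  obtain ⟨P, P', Y1, Y2, Q', Q, e1, e2, e3, s1, s2⟩ :=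
    hsep (p ++ y) y1 (y2 ++ q) r hr (by rw [← he]; simp [mul_assoc]) h2
  have s3 : Small g n' (ev g (Y2 ++ Q')) := by
    rcases s2 with s2 | s2
    · exact s2.mono hn'
    · exact s2.2
  have hY2 : Y2.length ≤ Lb g (n' + n0) := by
    rcases List.append_eq_append_iff.1 e3 with ⟨t, h1, h2⟩ | ⟨t, h1, h2⟩
    · have ht : t.length ≤ n0 := by
        have := congrArg List.length h2
        simp at this
        omega
      rw [h1, ← List.append_assoc, ev_append] at s3
      have hg : Geo g (Y2 ++ y2) := Geo.right (a := Y1) (by simpa [e2] using hG)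
      have := hg.le_Lb (s3.drop_right ht)
      simp at this
      omega
    · have hg : Geo g (Y2 ++ Q') := Geo.mid (a := Y1) (b := t) (by simpa [e2, h1] using hG)
      have := hg.le_Lb (s3.mono (Nat.le_add_right _ n0))
      simp at this
      omega
  rcases List.append_eq_append_iff.1 e1 with ⟨t, h1, h2⟩ | ⟨t, h1, h2⟩
  · refine ⟨t, P', h2, ?_⟩
    have := (s1.mono (Nat.le_add_right _ n0)).append_right hY2
    rw [e2, ← List.append_assoc]
    exact this.mono (by omega)
  · have ht : t.length ≤ n0 := by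
      have := congrArg List.length h1
      simp at this
      omega
    rw [h2, List.append_assoc, ev_append] at s1
    refine ⟨[], y, rfl, ?_⟩
    have := (s1.drop_left ht).append_right hY2
    rw [e2, ← List.append_assoc]
    exact this.mono (by omega)

end Pool.Agent.Lib.MP_dd8e80_al
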