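import Mathlib

namespace Pool.Agent.Lib.MP_dd8e80_al

universe u

/-- Deterministic pushdown automaton: input alphabet `α`, states `Q`, stack alphabet `Γ`.
`trans q (some a) X` is the move reading `a`, `trans q none X` the epsilon move, with `X` on top
of the stack; a move gives the new state and the word replacing `X`. -/
structure DPDA (α Q Γ : Type u) : Type u where
  start : Q
  bottom : Γ
  final : Set Q
  trans : Q → Option α → Γ → Option (Q × List Γ)
  det : ∀ (q : Q) (X : Γ) (a : α), trans q none X ≠ none → trans q (some a) X = none

/-- One move between configurations (state, remaining input, stack with its top first). -/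
inductive DPDA.Step {α Q Γ : Type u} (M : DPDA α Q Γ) :
    Q × List α × List Γ → Q × List α × List Γ → Prop
  | read (q q' : Q) (a : α) (w : List α) (X : Γ) (γ s : List Γ) :
      M.trans q (some a) X = some (q', γ) → DPDA.Step M (q, a :: w, X :: s) (q', w, γ ++ s)
  | eps (q q' : Q) (w : List α) (X : Γ) (γ s : List Γ) :
      M.trans q none X = some (q', γ) → DPDA.Step M (q, w, X :: s) (q', w, γ ++ s)

/-- The language accepted by final state. -/
def DPDA.language {α Q Γ : Type u} (M : DPDA α Q Γ) : Language α :=
  {w | ∃ q ∈ M.final, ∃ s : List Γ,
    Relation.ReflTransGen M.Step (M.start, w, [M.bottom]) (q, [], s)}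

/-- Deterministic context-free languages. -/
def IsDCF {α : Type u} (L : Language α) : Prop :=
  ∃ (Q Γ : Type u) (_ : Finite Q) (_ : Finite Γ) (M : DPDA α Q Γ), M.language = L

/-- The word problem of `S` with respect to `A`; the letter `none` is the separator. -/
def wordProblem {S : Type u} [Semigroup S] (A : Finset S) : Language (Option A) :=
  {w | ∃ u v : FreeSemigroup A,
    FreeSemigroup.lift (fun a : A => (a : S)) u = FreeSemigroup.lift (fun a : A => (a : S)) v ∧
    w = (u.head :: u.tail).map some ++ none :: ((v.head :: v.tail).reverse.map some)}

end Pool.Agent.Lib.MP_dd8e80_al
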