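import Mathlib
import Pool.Agent.Lib.MP_dd8e80_al.Basic

namespace Pool.Agent.Lib.MP_dd8e80_al

section gen
variable {T : Type*} (G : ContextFreeGrammar T)

inductive Gen : List (Symbol T G.NT) → List T → Prop
  | nil : Gen [] []
  | term (a : T) (β : List (Symbol T G.NT)) (y : List T) :
      Gen β y → Gen (Symbol.terminal a :: β) (a :: y)
  | nt (r : ContextFreeRule T G.NT) (β : List (Symbol T G.NT)) (y1 y2 : List T) :
      r ∈ G.rules → Gen r.output y1 → Gen β y2 → Gen (Symbol.nonterminal r.input :: β) (y1 ++ y2)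

variable {G}

lemma Gen.append {β1 β2 : List (Symbol T G.NT)} {y1 y2 : List T} (h1 : Gen G β1 y1)
    (h2 : Gen G β2 y2) : Gen G (β1 ++ β2) (y1 ++ y2) := by
  induction h1 with
  | nil => simpa using h2
  | term a β y _ ih => exact Gen.term a _ _ ih
  | nt r β z1 z2 hr h _ _ ih =>
    rw [List.append_assoc]
    exact Gen.nt r _ _ _ hr h ih

lemma Gen.split {β1 β2 : List (Symbol T G.NT)} {y : List T} (h : Gen G (β1 ++ β2) y) :
    ∃ y1 y2, y = y1 ++ y2 ∧ Gen G β1 y1 ∧ Gen G β2 y2 := by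
  induction β1 generalizing y with
  | nil => exact ⟨[], y, rfl, Gen.nil, h⟩
  | cons X β1 ih =>
    rw [List.cons_append] at h
    cases h with
    | term a β y h =>
      obtain ⟨y1, y2, rfl, h1, h2⟩ := ih h
      exact ⟨a :: y1, y2, rfl, Gen.term a _ _ h1, h2⟩
    | nt r β z1 z2 hr h h' =>
      obtain ⟨y1, y2, rfl, h1, h2⟩ := ih h'
      exact ⟨z1 ++ y1, y2, by simp, Gen.nt r _ _ _ hr h h1, h2⟩

lemma gen_terminals (w : List T) : Gen G (w.map Symbol.terminal) w := by
  induction w with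
  | nil => exact Gen.nil
  | cons a w ih => exact Gen.term a _ _ ih

lemma gen_of_derives {β : List (Symbol T G.NT)} {w : List T}
    (h : G.Derives β (w.map Symbol.terminal)) : Gen G β w := by
  induction h using Relation.ReflTransGen.head_induction_on with
  | refl => exact gen_terminals w
  | head hp _ ih =>
    obtain ⟨r, hr, hrw⟩ := hp
    obtain ⟨p, q, rfl, rfl⟩ := hrw.exists_parts
    obtain ⟨y1, y3, rfl, h12, h3⟩ := ih.split
    obtain ⟨y1, y2, rfl, h1, h2⟩ := h12.split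
    refine Gen.append (Gen.append h1 ?_) h3
    simpa using Gen.nt r [] y2 [] hr h2 Gen.nil

lemma Gen.derives {β : List (Symbol T G.NT)} {w : List T} (h : Gen G β w) :
    G.Derives β (w.map Symbol.terminal) := by
  induction h with
  | nil => exact Relation.ReflTransGen.refl
  | term a β y _ ih => exact ih.append_left [Symbol.terminal a]
  | nt r β y1 y2 hr _ _ ih1 ih2 =>
    have h1 : G.Produces (Symbol.nonterminal r.input :: β) (r.output ++ β) :=
      ⟨r, hr, ContextFreeRule.Rewrites.head β⟩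
    rw [List.map_append]
    exact h1.trans_derives ((ih1.append_right β).trans (ih2.append_left _))

variable (G) in
def Frag : Set (List (Symbol T G.NT)) :=
  {β | β <:+ [Symbol.nonterminal G.initial] ∨ ∃ r ∈ G.rules, β <:+ r.output}

lemma frag_finite : (Frag G).Finite := by
  have h : ∀ l : List (Symbol T G.NT), {β | β <:+ l}.Finite := fun l =>
    (List.finite_toSet l.tails).subset (fun β hβ => (List.mem_tails _ _).2 hβ)
  have h2 : (⋃ r ∈ (G.rules : Set (ContextFreeRule T G.NT)), {β | β <:+ r.output}).Finite :=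
    G.rules.finite_toSet.biUnion (fun r _ => h _)
  refine ((h [Symbol.nonterminal G.initial]).union h2).subset ?_
  rintro β (hβ | ⟨r, hr, hβ⟩)
  · exact Or.inl hβ
  · exact Or.inr (Set.mem_biUnion hr hβ)

lemma Frag.tail {X : Symbol T G.NT} {β : List (Symbol T G.NT)} (h : X :: β ∈ Frag G) :
    β ∈ Frag G := by
  rcases h with h | ⟨r, hr, h⟩
  · exact Or.inl ((List.suffix_cons X β).trans h)
  · exact Or.inr ⟨r, hr, (List.suffix_cons X β).trans h⟩

lemma Frag.out {r : ContextFreeRule T G.NT} (hr : r ∈ G.rules) : r.output ∈ Frag G :=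
  Or.inr ⟨r, hr, List.suffix_refl _⟩

end gen

variable {A M : Type*} [Monoid M] (g : A → M)

inductive Reach {Z : Type*} (C : Z → M → M → Prop) (z0 : Z) (Pc : List A → Prop) :
    Z → List A → Prop
  | base : Reach C z0 Pc z0 []
  | left (z z' : Z) (v t : List A) : Reach C z0 Pc z v →
      (∀ p q, C z p q → C z' (p * ev g t) q) → Reach C z0 Pc z' v
  | right (z z' : Z) (v y : List A) : Reach C z0 Pc z v → Pc y →
      (∀ p q, C z p q → C z' p (q * ev g y)) → Reach C z0 Pc z' (v ++ y)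

def hw (u v : List A) : List (Option A) := u.map some ++ none :: v.reverse.map some

lemma hw_split {y1 y2 : List (Option A)} {u v : List A} (h : y1 ++ y2 = hw u v) :
    (∃ x1 u', u = x1 ++ u' ∧ y1 = x1.map some ∧ y2 = hw u' v) ∨
    (∃ y v', v = y ++ v' ∧ y1 = hw u v' ∧ y2 = y.reverse.map some) := by
  unfold hw at h
  rcases List.append_eq_append_iff.1 h with ⟨t, h1, h2⟩ | ⟨t, h1, h2⟩
  · obtain ⟨x1, u', e, e1, e2⟩ := List.map_eq_append_iff.1 h1
    exact Or.inl ⟨x1, u', e, e1.symm, by rw [h2, ← e2]; rfl⟩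
  · cases t with
    | nil => exact Or.inl ⟨u, [], by simp, by simpa using h1, by simpa [hw] using h2.symm⟩
    | cons o t =>
      simp only [List.cons_append, List.cons.injEq] at h2
      obtain ⟨rfl, h2⟩ := h2
      obtain ⟨s1, s2, e, e1, e2⟩ := List.map_eq_append_iff.1 h2
      refine Or.inr ⟨s2.reverse, s1.reverse, ?_, ?_, ?_⟩
      · rw [← List.reverse_append, ← e, List.reverse_reverse]
      · rw [h1, ← e1]; simp [hw]
      · simp [e2]

variable (G : ContextFreeGrammar (Option A))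

def RR (β : List (Symbol (Option A) G.NT)) (a b : M) : Prop :=
  ∃ u v, Gen G β (hw u v) ∧ a = ev g u ∧ b = ev g v

def CC (β : List (Symbol (Option A) G.NT)) (p q : M) : Prop :=
  ∀ a b, RR g G β a b → p * a = q * b

def UseL (β : List (Symbol (Option A) G.NT)) : Prop :=
  ∃ p q v : M, ∀ x : List A, Gen G β (x.map some) → p * ev g x * q = v

def UseR (β : List (Symbol (Option A) G.NT)) : Prop :=
  ∃ p q v : M, ∀ x : List A, Gen G β (x.reverse.map some) → p * ev g x * q = v

variable {g G}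

lemma exists_n0 [IsCancelMul M] : ∃ n0, 1 ≤ n0 ∧
    (∀ β ∈ Frag G, ∀ x : List A, UseL g G β → Gen G β (x.map some) → Small g n0 (ev g x)) ∧
    (∀ β ∈ Frag G, ∀ x : List A, UseR g G β → Gen G β (x.reverse.map some) →
      Small g n0 (ev g x)) := by
  have h1 : (⋃ β ∈ Frag G, {s | ∃ x : List A, s = ev g x ∧ UseL g G β ∧
      Gen G β (x.map some)}).Finite := by
    refine frag_finite.biUnion (fun β _ => Set.Subsingleton.finite ?_)
    rintro s ⟨x, rfl, ⟨p, q, v, h⟩, hx⟩ s' ⟨x', rfl, -, hx'⟩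
    exact mul_left_cancel (mul_right_cancel ((h x hx).trans (h x' hx').symm))
  have h2 : (⋃ β ∈ Frag G, {s | ∃ x : List A, s = ev g x ∧ UseR g G β ∧
      Gen G β (x.reverse.map some)}).Finite := by
    refine frag_finite.biUnion (fun β _ => Set.Subsingleton.finite ?_)
    rintro s ⟨x, rfl, ⟨p, q, v, h⟩, hx⟩ s' ⟨x', rfl, -, hx'⟩
    exact mul_left_cancel (mul_right_cancel ((h x hx).trans (h x' hx').symm))
  obtain ⟨L, hL⟩ := bound_of_finite (g := g) (h1.union h2)
  refine ⟨L + 1, by omega, fun β hβ x hu hx => ?_, fun β hβ x hu hx => ?_⟩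
  · obtain ⟨w', e, hl⟩ := hL x (Or.inl (Set.mem_biUnion hβ ⟨x, rfl, hu, hx⟩))
    rw [← e]; exact small_of_len (by omega)
  · obtain ⟨w', e, hl⟩ := hL x (Or.inr (Set.mem_biUnion hβ ⟨x, rfl, hu, hx⟩))
    rw [← e]; exact small_of_len (by omega)

lemma sepd_of_gen {n0 : ℕ} (h1 : 1 ≤ n0)
    (hL : ∀ β ∈ Frag G, ∀ x : List A, UseL g G β → Gen G β (x.map some) → Small g n0 (ev g x))
    {β : List (Symbol (Option A) G.NT)} {y : List (Option A)} (h : Gen G β y) :
    β ∈ Frag G → UseL g G β → ∀ x : List A, y = x.map some → Sepd g n0 x := by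
  induction h with
  | nil =>
    intro _ _ x hx W1 Y W2 e hY
    have : x = [] := by simpa using hx.symm
    subst this
    have := congrArg List.length e
    simp at this
    omega
  | term t β y hy ih =>
    intro hβ ⟨p, q, v, hu⟩ x hx W1 Y W2 e hY
    obtain ⟨a, x', rfl⟩ : ∃ a x', x = a :: x' := by
      cases x with
      | nil => simp at hx
      | cons a x' => exact ⟨a, x', rfl⟩
    simp only [List.map_cons, List.cons.injEq] at hx
    obtain ⟨rfl, rfl⟩ := hx
    have hu' : UseL g G β := ⟨p * g a, q, v, fun x hx => by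
      have := hu (a :: x) (Gen.term _ _ _ hx)
      simpa [mul_assoc] using this⟩
    cases W1 with
    | nil =>
      cases Y with
      | nil => simp at hY
      | cons a' Y' =>
        simp only [List.nil_append, List.cons_append, List.cons.injEq] at e
        obtain ⟨rfl, e⟩ := e
        refine ⟨[], [], [a], Y', W2, [], rfl, rfl, by simp, small_of_len (by simpa using h1), ?_⟩
        rw [← e]
        exact hL β (Frag.tail hβ) x' hu' hy
    | cons a' W1' =>
      simp only [List.cons_append, List.cons.injEq] at e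
      obtain ⟨rfl, e⟩ := e
      obtain ⟨P, P', Y1, Y2, Q', Q, f1, f2, f3, f4, f5⟩ :=
        ih (Frag.tail hβ) hu' x' rfl W1' Y W2 e hY
      exact ⟨a :: P, P', Y1, Y2, Q', Q, by simp [f1], f2, f3, f4, f5⟩
  | nt r β y1 y2 hr hy1 hy2 ih1 ih2 =>
    intro hβ ⟨p, q, v, hu⟩ x hx W1 Y W2 e hY
    obtain ⟨x1, x2, rfl, rfl, rfl⟩ := List.map_eq_append_iff.1 hx.symm
    have hu1 : UseL g G r.output := ⟨p, ev g x2 * q, v, fun x hx => by
      have := hu (x ++ x2) (by rw [List.map_append]; exact Gen.nt r _ _ _ hr hx hy2)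
      simpa [mul_assoc] using this⟩
    have hu2 : UseL g G β := ⟨p * ev g x1, q, v, fun x hx => by
      have := hu (x1 ++ x) (by rw [List.map_append]; exact Gen.nt r _ _ _ hr hy1 hx)
      simpa [mul_assoc] using this⟩
    rcases List.append_eq_append_iff.1 e with ⟨t, e1, e2⟩ | ⟨t, e1, e2⟩
    · rcases List.append_eq_append_iff.1 e1 with ⟨s, e3, e4⟩ | ⟨s, e3, e4⟩
      · refine ⟨[], W1, s, t, W2, [], rfl, e4, by simp, ?_, ?_⟩
        · rw [← e3]; exact hL _ (Frag.out hr) x1 hu1 hy1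
        · rw [← e2]; exact hL _ (Frag.tail hβ) x2 hu2 hy2
      · obtain ⟨P, P', Y1, Y2, Q', Q, f1, f2, f3, f4, f5⟩ :=
          ih2 (Frag.tail hβ) hu2 x2 rfl s Y W2 (by rw [e2, e4]) hY
        exact ⟨x1 ++ P, P', Y1, Y2, Q', Q, by simp [e3, f1], f2, f3, f4, f5⟩
    · obtain ⟨P, P', Y1, Y2, Q', Q, f1, f2, f3, f4, f5⟩ :=
        ih1 (Frag.out hr) hu1 x1 rfl W1 Y t e1 hY
      exact ⟨P, P', Y1, Y2, Q', Q ++ x2, f1, f2, by simp [e2, f3], f4, f5⟩

lemma spine {n0 : ℕ} (h1 : 1 ≤ n0)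
    (hL : ∀ β ∈ Frag G, ∀ x : List A, UseL g G β → Gen G β (x.map some) → Small g n0 (ev g x))
    (hR : ∀ β ∈ Frag G, ∀ x : List A, UseR g G β → Gen G β (x.reverse.map some) →
      Small g n0 (ev g x)) (z0 : Frag G)
    {β : List (Symbol (Option A) G.NT)} {y : List (Option A)} (h : Gen G β y) :
    ∀ (hβ : β ∈ Frag G) (u1 : List A) (a : A) (u2 v p q : List A), y = hw (u1 ++ a :: u2) v →
      CC g G β (ev g p) (ev g q) →
      Reach g (fun z : Frag G => CC g G z.1) z0 (fun y => Small g n0 (ev g y)) ⟨β, hβ⟩ q →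
      ∃ (P P' Q' Q v1 v2 : List A) (z z' : Frag G), u1 = P ++ P' ∧ u2 = Q' ++ Q ∧ v = v1 ++ v2 ∧
        Small g n0 (ev g (P' ++ a :: Q')) ∧ Sepd g n0 (P' ++ a :: Q') ∧
        CC g G z.1 (ev g (p ++ P)) (ev g (q ++ v1)) ∧
        RR g G z.1 (ev g (P' ++ a :: Q' ++ Q)) (ev g v2) ∧
        CC g G z'.1 (ev g (p ++ (P ++ (P' ++ a :: Q')))) (ev g (q ++ v1)) ∧
        RR g G z'.1 (ev g Q) (ev g v2) ∧
        Reach g (fun z : Frag G => CC g G z.1) z0 (fun y => Small g n0 (ev g y)) z' (q ++ v1) := by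
  induction h with
  | nil =>
    intro _ u1 a u2 v p q hy
    simp [hw] at hy
  | term t β y hy ih =>
    intro hβ u1 a u2 v p q e hC hRe
    have lstep : ∀ b : A, t = some b → ∀ p q, CC g G (Symbol.terminal t :: β) p q →
        CC g G β (p * ev g [b]) q := by
      rintro b rfl p q h _ _ ⟨u, v, hg, rfl, rfl⟩
      have := h (ev g (b :: u)) (ev g v) ⟨b :: u, v, Gen.term _ _ _ hg, rfl, rfl⟩
      simpa [mul_assoc] using this
    cases u1 with
    | nil =>
      have e' : t = some a ∧ y = hw u2 v := by simpa [hw] using e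
      obtain ⟨rfl, rfl⟩ := e'
      refine ⟨[], [], [], u2, [], v, ⟨_, hβ⟩, ⟨β, Frag.tail hβ⟩, rfl, rfl, rfl,
        small_of_len (by simpa using h1), ?_, by simpa using hC,
        ⟨a :: u2, v, Gen.term _ _ _ hy, by simp, rfl⟩, ?_, ⟨u2, v, hy, rfl, rfl⟩, ?_⟩
      · intro W1 Y W2 e hY
        have := congrArg List.length e
        simp at this
        omega
      · simpa using lstep a rfl _ _ hC
      · simpa using Reach.left _ ⟨β, Frag.tail hβ⟩ q [a] hRe (lstep a rfl)
    | cons b u1 =>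
      have e' : t = some b ∧ y = hw (u1 ++ a :: u2) v := by simpa [hw] using e
      obtain ⟨rfl, rfl⟩ := e'
      obtain ⟨P, P', Q', Q, v1, v2, z, z', f1, f2, f3, f4, f5, f6, f7, f8, f9, f10⟩ :=
        ih (Frag.tail hβ) u1 a u2 v (p ++ [b]) q rfl (by simpa using lstep b rfl _ _ hC)
          (Reach.left _ ⟨β, Frag.tail hβ⟩ q [b] hRe (lstep b rfl))
      exact ⟨b :: P, P', Q', Q, v1, v2, z, z', by simp [f1], f2, f3, f4, f5,
        by simpa [mul_assoc] using f6, f7, by simpa [mul_assoc] using f8, f9, f10⟩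
  | nt r β y1 y2 hr hy1 hy2 ih1 ih2 =>
    intro hβ u1 a u2 v p q e hC hRe
    rcases hw_split e with ⟨x1, u', e1, rfl, rfl⟩ | ⟨y, v', e1, rfl, rfl⟩
    · have lstep : ∀ p q, CC g G (Symbol.nonterminal r.input :: β) p q →
          CC g G β (p * ev g x1) q := by
        rintro p q h _ _ ⟨u, v, hg, rfl, rfl⟩
        have := h (ev g (x1 ++ u)) (ev g v) ⟨x1 ++ u, v, by
          have := Gen.nt r _ _ _ hr hy1 hg
          simpa [hw] using this, rfl, rfl⟩
        simpa [mul_assoc] using this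
      have hcase : (∃ t, u1 = x1 ++ t ∧ u' = t ++ a :: u2) ∨
          (∃ t, x1 = u1 ++ a :: t ∧ u2 = t ++ u') := by
        rcases List.append_eq_append_iff.1 e1 with ⟨t, h1, h2⟩ | ⟨t, h1, h2⟩
        · cases t with
          | nil => exact Or.inl ⟨[], by simpa using h1.symm, by simpa using h2.symm⟩
          | cons b t =>
            simp only [List.cons_append, List.cons.injEq] at h2
            exact Or.inr ⟨t, by rw [h1, h2.1], h2.2⟩
        · exact Or.inl ⟨t, h1, h2⟩
      rcases hcase with ⟨t, rfl, rfl⟩ | ⟨t, rfl, rfl⟩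
      · obtain ⟨P, P', Q', Q, v1, v2, z, z', f1, f2, f3, f4, f5, f6, f7, f8, f9, f10⟩ :=
          ih2 (Frag.tail hβ) t a u2 v (p ++ x1) q rfl (by simpa using lstep _ _ hC)
            (Reach.left _ ⟨β, Frag.tail hβ⟩ q x1 hRe lstep)
        exact ⟨x1 ++ P, P', Q', Q, v1, v2, z, z', by simp [f1], f2, f3, f4, f5,
          by simpa [mul_assoc] using f6, f7, by simpa [mul_assoc] using f8, f9, f10⟩
      · have hu : UseL g G r.output := ⟨ev g p, ev g u', ev g q * ev g v, fun x hx => by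
          have := hC (ev g (x ++ u')) (ev g v) ⟨x ++ u', v, by
            have := Gen.nt r _ _ _ hr hx hy2
            simpa [hw] using this, rfl, rfl⟩
          simpa [mul_assoc] using this⟩
        refine ⟨[], u1, t, u', [], v, ⟨_, hβ⟩, ⟨β, Frag.tail hβ⟩, rfl, rfl, rfl,
          hL _ (Frag.out hr) _ hu hy1, sepd_of_gen h1 hL hy1 (Frag.out hr) hu _ rfl,
          by simpa using hC, ⟨u1 ++ a :: t ++ u', v, ?_, rfl, rfl⟩, ?_, ⟨u', v, hy2, rfl, rfl⟩, ?_⟩
        · have := Gen.nt r _ _ _ hr hy1 hy2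
          simpa [hw] using this
        · simpa using lstep _ _ hC
        · simpa using Reach.left _ ⟨β, Frag.tail hβ⟩ q _ hRe lstep
    · have rstep : ∀ p q, CC g G (Symbol.nonterminal r.input :: β) p q →
          CC g G r.output p (q * ev g y) := by
        rintro p q h _ _ ⟨u, v, hg, rfl, rfl⟩
        have := h (ev g u) (ev g (y ++ v)) ⟨u, y ++ v, by
          have := Gen.nt r _ _ _ hr hg hy2
          simpa [hw] using this, rfl, rfl⟩
        simpa [mul_assoc] using this
      have hu : UseR g G β := ⟨ev g q, ev g v', ev g p * ev g (u1 ++ a :: u2), fun x hx => by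
        have := hC (ev g (u1 ++ a :: u2)) (ev g (x ++ v')) ⟨_, x ++ v', by
          have := Gen.nt r _ _ _ hr hy1 hx
          simpa [hw] using this, rfl, rfl⟩
        rw [this]
        simp [mul_assoc]⟩
      obtain ⟨P, P', Q', Q, v1, v2, z, z', f1, f2, f3, f4, f5, f6, f7, f8, f9, f10⟩ :=
        ih1 (Frag.out hr) u1 a u2 v' p (q ++ y) rfl (by simpa using rstep _ _ hC)
          (Reach.right _ ⟨_, Frag.out hr⟩ q y hRe (hR β (Frag.tail hβ) y hu hy2) rstep)
      exact ⟨P, P', Q', Q, y ++ v1, v2, z, z', f1, f2, by simp [e1, f3], f4, f5,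
        by simpa [mul_assoc] using f6, f7, by simpa [mul_assoc] using f8, f9,
        by simpa using f10⟩

lemma short_pairs {Z : Type*} [Finite Z] (C : Z → M → M → Prop) : ∃ c, ∀ z (p q : List A),
    C z (ev g p) (ev g q) → ∃ p' q' : List A, p'.length ≤ c ∧ q'.length ≤ c ∧
      C z (ev g p') (ev g q') := by
  have : ∀ z, ∃ c, ∀ (p q : List A), C z (ev g p) (ev g q) → ∃ p' q' : List A, p'.length ≤ c ∧
      q'.length ≤ c ∧ C z (ev g p') (ev g q') := by
    intro z
    by_cases h : ∃ p q : List A, C z (ev g p) (ev g q)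
    · obtain ⟨p, q, h⟩ := h
      exact ⟨p.length + q.length, fun _ _ _ => ⟨p, q, by omega, by omega, h⟩⟩
    · exact ⟨0, fun p q h' => absurd ⟨p, q, h'⟩ h⟩
  choose f hf using this
  obtain ⟨c, hc⟩ := (Set.finite_range f).bddAbove
  refine ⟨c, fun z p q h => ?_⟩
  obtain ⟨p', q', h1, h2, h3⟩ := hf z p q h
  have := hc ⟨z, rfl⟩
  exact ⟨p', q', by omega, by omega, h3⟩

variable (g) in
structure Spine (Z : Type*) (C R : Z → M → M → Prop) (z0 : Z) (c n0 : ℕ) : Prop where
  hCR : ∀ z p q a b, C z p q → R z a b → p * a = q * b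
  hC0 : C z0 1 1
  shortC : ∀ z (p q : List A), C z (ev g p) (ev g q) → ∃ p' q' : List A, p'.length ≤ c ∧
    q'.length ≤ c ∧ C z (ev g p') (ev g q')
  shortR : ∀ z (p q : List A), R z (ev g p) (ev g q) → ∃ p' q' : List A, p'.length ≤ c ∧
    q'.length ≤ c ∧ R z (ev g p') (ev g q')
  piece : ∀ u1 a u2 v, v ≠ [] → ev g (u1 ++ a :: u2) = ev g v →
    ∃ (P P' Q' Q v1 v2 : List A) (z z' : Z), u1 = P ++ P' ∧ u2 = Q' ++ Q ∧ v = v1 ++ v2 ∧
      Small g n0 (ev g (P' ++ a :: Q')) ∧ Sepd g n0 (P' ++ a :: Q') ∧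
      C z (ev g P) (ev g v1) ∧ R z (ev g (P' ++ a :: Q' ++ Q)) (ev g v2) ∧
      C z' (ev g (P ++ (P' ++ a :: Q'))) (ev g v1) ∧ R z' (ev g Q) (ev g v2) ∧
      Reach g C z0 (fun y => Small g n0 (ev g y)) z' v1

theorem extract [IsCancelMul M] (hG : ∀ w, w ∈ G.language ↔
    ∃ u v : List A, u ≠ [] ∧ v ≠ [] ∧ ev g u = ev g v ∧ w = hw u v) :
    ∃ (z0 : Frag G) (c n0 : ℕ),
      Spine g (Frag G) (fun z => CC g G z.1) (fun z => RR g G z.1) z0 c n0 := by
  have := (frag_finite (G := G)).to_subtype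
  obtain ⟨n0, h1, hL, hR⟩ := exists_n0 (g := g) (G := G)
  obtain ⟨c1, hc1⟩ := short_pairs (g := g) (fun z : Frag G => CC g G z.1)
  obtain ⟨c2, hc2⟩ := short_pairs (g := g) (fun z : Frag G => RR g G z.1)
  have h0 : [Symbol.nonterminal G.initial] ∈ Frag G := Or.inl (List.suffix_refl _)
  have hC0 : CC g G [Symbol.nonterminal G.initial] 1 1 := by
    rintro _ _ ⟨u, v, hg, rfl, rfl⟩
    obtain ⟨u', v', -, -, he, hw'⟩ := (hG (hw u v)).1 hg.derives
    have key : ∀ (u u' : List A) (s s' : List (Option A)),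
        u.map some ++ none :: s = u'.map some ++ none :: s' → u = u' ∧ s = s' := by
      intro u
      induction u with
      | nil => intro u' s s' h; cases u' <;> simp_all
      | cons a u ih =>
        intro u' s s' h
        cases u' with
        | nil => simp at h
        | cons a' u' =>
          simp only [List.map_cons, List.cons_append, List.cons.injEq, Option.some.injEq] at h
          obtain ⟨i1, i2⟩ := ih u' s s' h.2
          exact ⟨by rw [h.1, i1], i2⟩
    obtain ⟨i1, i2⟩ := key _ _ _ _ hw'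
    have i3 : v = v' := List.reverse_injective (List.map_injective_iff.2 (Option.some_injective _) i2)
    rw [i1, i3, he]
  refine ⟨⟨_, h0⟩, c1 + c2, n0, fun z p q a b hC hR => hC a b hR, hC0, ?_, ?_, ?_⟩
  · intro z p q h
    obtain ⟨p', q', i1, i2, i3⟩ := hc1 z p q h
    exact ⟨p', q', by omega, by omega, i3⟩
  · intro z p q h
    obtain ⟨p', q', i1, i2, i3⟩ := hc2 z p q h
    exact ⟨p', q', by omega, by omega, i3⟩
  · intro u1 a u2 v hv he
    have hg : Gen G [Symbol.nonterminal G.initial] (hw (u1 ++ a :: u2) v) :=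
      gen_of_derives ((hG _).2 ⟨_, v, by simp, hv, he, rfl⟩)
    simpa using spine h1 hL hR ⟨_, h0⟩ hg h0 u1 a u2 v [] [] rfl (by simpa using hC0) Reach.base

lemma Spine.toPiece {Z : Type*} {C R : Z → M → M → Prop} {z0 : Z} {c n0 : ℕ}
    (S : Spine g Z C R z0 c n0) : Piece g c n0 := by
  have cut : ∀ z (u1 u2 v1 v2 : List A), C z (ev g u1) (ev g v1) → R z (ev g u2) (ev g v2) →
      Cut g c u1 u2 v1 v2 := by
    intro z u1 u2 v1 v2 hC hR
    obtain ⟨p, q, i1, i2, i3⟩ := S.shortC z _ _ hC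
    obtain ⟨α, β, j1, j2, j3⟩ := S.shortR z _ _ hR
    exact ⟨⟨α, β, j1, j2, S.hCR z _ _ _ _ hC j3⟩, ⟨p, q, i1, i2, S.hCR z _ _ _ _ i3 hR⟩⟩
  intro u1 a u2 v hv he
  obtain ⟨P, P', Q', Q, v1, v2, z, z', f1, f2, f3, f4, f5, f6, f7, f8, f9, -⟩ :=
    S.piece u1 a u2 v hv he
  exact ⟨P, P', Q', Q, v1, v2, f1, f2, f3, f4, f5, cut z _ _ _ _ f6 f7, cut z' _ _ _ _ f8 f9⟩

end Pool.Agent.Lib.MP_dd8e80_al
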