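import Mathlib
import Pool.Agent.Lib.MP_dd8e80_al.Basic

namespace Pool.Agent.Lib.MP_dd8e80_al

variable {A M : Type*} [Monoid M] (g : A → M)

def NoLand (nl : ℕ) (w e W x : List A) : Prop :=
  ∀ f y x1 x2, w ++ e = f ++ y → x = x1 ++ x2 → x1 ≠ [] → ¬ Small g nl (ev g (y ++ W ++ x1))

def BlockOK (k D nl : ℕ) (b : List A × List A) (s : M) : Prop :=
  b.1.length = k ∧ b.2.length = D ∧
    ∃ W x, Geo g (b.1 ++ b.2 ++ W) ∧ ev g (b.2 ++ W ++ x) = s ∧ NoLand g nl b.1 b.2 W x

def Comp (nl : ℕ) (b : List A × List A) (s : M) : Prop :=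
  ∃ f y sw, b.1 ++ b.2 = f ++ y ∧ Small g nl (ev g sw) ∧ ev g b.1 * s = ev g f * ev g sw

def flat : List (List A × List A) → List A
  | [] => []
  | b :: bs => flat bs ++ b.1

def Blocks (k D nl : ℕ) : List (List A × List A) → M → Prop
  | [], _ => True
  | b :: bs, s => BlockOK g k D nl b s ∧ Blocks k D nl bs (ev g b.1 * s)

def RInv (n0 E k D nl : ℕ) (bs : List (List A × List A)) (w : List A) : Prop :=
  Red g n0 E (flat bs) ∧ Geo g w ∧ Blocks g k D nl bs (ev g w)

variable {g}

lemma Blocks.len {k D nl : ℕ} {bs : List (List A × List A)} {s : M} (h : Blocks g k D nl bs s) :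
    ∀ b ∈ bs, b.1.length = k ∧ b.2.length = D := by
  induction bs generalizing s with
  | nil => simp
  | cons b bs ih =>
    intro b' hb'
    rcases List.mem_cons.1 hb' with rfl | hb'
    · exact ⟨h.1.1, h.1.2.1⟩
    · exact ih h.2 b' hb'

lemma Blocks.last {k D nl : ℕ} {bs : List (List A × List A)} {b : List A × List A} {w : List A}
    (h : Blocks g k D nl (bs ++ [b]) (ev g w)) :
    BlockOK g k D nl b (ev g (flat bs ++ w)) ∧ flat (bs ++ [b]) = b.1 ++ flat bs := by
  induction bs generalizing w with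
  | nil => exact ⟨by simpa [flat] using h.1, by simp [flat]⟩
  | cons b' bs ih =>
    have h2 := h.2
    rw [← ev_append] at h2
    obtain ⟨i1, i2⟩ := ih h2
    refine ⟨by simpa [flat] using i1, ?_⟩
    simp only [List.cons_append, flat, i2, List.append_assoc]

variable [Finite A] [IsCancelMul M]

lemma junction {c n0 : ℕ} (hP : Piece g c n0) : ∃ D E, Lb g n0 ≤ E ∧ ∀ nl, n0 ≤ nl →
    ∀ w e W x w' : List A, Geo g (w ++ e ++ W) → e.length = D → NoLand g nl w e W x → Geo g w' →
      ev g w' = ev g (e ++ W ++ x) → Red g n0 E (w ++ w') := by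
  obtain ⟨n1, hch⟩ := chord hP
  set n2 := Lb g n1 + c with hn2
  set D := Lb g n2 + 1 with hD
  set E1 := Lb g (D + Lb g n0 + c) with hE1
  refine ⟨D, Lb g n0 + E1 + Lb g (n0 + E1), by omega, ?_⟩
  intro nl hnl w e W x w' hG he hN hG' hev a f b hf hs
  have hGw : Geo g w := Geo.left (b := e ++ W) (by simpa using hG)
  rw [List.append_assoc] at hf
  rcases List.append_eq_append_iff.1 hf with ⟨t, e1, e2⟩ | ⟨t, e1, e2⟩
  · have : Geo g f := Geo.mid (a := t) (b := b) (by simpa [e2] using hG')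
    have := this.le_Lb hs
    omega
  rcases List.append_eq_append_iff.1 e2 with ⟨s, e3, e4⟩ | ⟨y', e3, e4⟩
  · have : Geo g f := Geo.mid (a := a) (b := s) (by simpa [e1, e3] using hGw)
    have := this.le_Lb hs
    omega
  have hGt : Geo g t := Geo.right (a := a) (by simpa [e1] using hGw)
  by_cases hy : y'.length ≤ E1
  · rw [e3, ev_append] at hs
    have := hGt.le_Lb (hs.drop_right hy)
    rw [e3]
    simp
    omega
  exfalso
  have hw' : w' ≠ [] := by
    rintro rfl
    have := congrArg List.length e4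
    simp at this
    omega
  obtain ⟨e0, a0, rfl⟩ : ∃ e0 a0, e = e0 ++ [a0] := by
    rcases List.eq_nil_or_concat e with rfl | ⟨e0, a0, rfl⟩
    · simp [hD] at he
    · exact ⟨e0, a0, by simp⟩
  obtain ⟨P, P', Q', Q, v1, v2, f1, f2, f3, s1, -, -, ⟨α, β, hα, hβ, hc⟩, -⟩ :=
    hP e0 a0 (W ++ x) w' hw' (by rw [hev]; simp)
  have hpre : ∃ r, W = Q' ++ r := by
    rcases List.append_eq_append_iff.1 f2 with ⟨r, h1, h2⟩ | ⟨r, h1, h2⟩
    · by_cases hr : r = []
      · exact ⟨[], by simp [h1, hr]⟩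
      · exfalso
        refine hN (w ++ P) (P' ++ [a0]) r Q (by simp [f1]) h2 hr ?_
        have : P' ++ [a0] ++ W ++ r = P' ++ a0 :: Q' := by simp [h1]
        rw [this]
        exact s1.mono hnl
    · exact ⟨r, h1⟩
  obtain ⟨r, hr⟩ := hpre
  have hpc : (P' ++ a0 :: Q').length ≤ Lb g n0 :=
    (Geo.mid (a := w ++ P) (b := r) (by simpa [f1, hr] using hG)).le_Lb s1
  have hv1 : v1.length ≤ E1 := by
    have hg : Geo g v1 := Geo.left (b := v2) (by simpa [f3] using hG')
    apply hg.le_Lb
    refine ⟨[], β, (P ++ (P' ++ a0 :: Q')) ++ α, by simp, by omega, ?_, ?_⟩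
    · have := congrArg List.length f1
      simp at he hpc this ⊢
      omega
    · rw [ev_append, hc]
      simp
  obtain ⟨y2, hy2⟩ : ∃ y2, y' = v1 ++ y2 := by
    rw [f3] at e4
    rcases List.append_eq_append_iff.1 e4 with ⟨r, h1, h2⟩ | ⟨r, h1, h2⟩
    · exact ⟨r, h1⟩
    · exfalso
      have := congrArg List.length h1
      simp at this
      omega
  have hGy : Geo g (v1 ++ y2) := Geo.left (b := b) (by rw [← hy2, ← e4]; exact hG')
  obtain ⟨z, z', hz, hsz⟩ := hch t v1 y2 hGy (by rw [← hy2, ← e3]; exact hs)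
  obtain ⟨sh, h1, h2⟩ := Lb_short hsz
  have hsm : Small g n2 (ev g (z' ++ (P ++ (P' ++ a0 :: Q')))) := by
    refine ⟨[], α, sh ++ β, by simp, by omega, by simp; omega, ?_⟩
    rw [ev_append g sh, h1, ev_append g z', ev_append g z' v1, mul_assoc (ev g z') (ev g v1), ← hc]
    simp [mul_assoc]
  have hgz : Geo g (z' ++ (P ++ (P' ++ a0 :: Q'))) :=
    Geo.mid (a := a ++ z) (b := r) (by simpa [e1, hz, f1, hr] using hG)
  have := hgz.le_Lb hsm
  have h3 := congrArg List.length f1
  simp at he this h3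
  omega

omit [Finite A] [IsCancelMul M] in
lemma BlockOK.extend {k D nl : ℕ} {b : List A × List A} {s : M} (h : BlockOK g k D nl b s) (a : A)
    (hc : ¬ Comp g nl b (s * g a)) : BlockOK g k D nl b (s * g a) := by
  obtain ⟨h1, h2, W, x, hG, hs, hN⟩ := h
  refine ⟨h1, h2, W, x ++ [a], hG, by rw [← hs]; simp [mul_assoc], ?_⟩
  intro f y x1 x2 e1 e2 hx1 hsm
  rcases List.eq_nil_or_concat x2 with rfl | ⟨x2', a', rfl⟩
  · apply hc
    refine ⟨f, y, _, e1, hsm, ?_⟩
    simp only [List.append_nil] at e2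
    have := congrArg (ev g) e1
    simp only [ev_append] at this
    rw [← hs, ← e2]
    simp only [ev_append, ← mul_assoc, this]
    simp
  · simp only [List.concat_eq_append, ← List.append_assoc] at e2
    have := List.append_inj_left' e2 rfl
    exact hN f y x1 x2' e1 this hx1 hsm

lemma Comp.short {nl : ℕ} {b : List A × List A} {s : M} (h : Comp g nl b s) :
    ∃ w', ev g w' = ev g b.1 * s ∧ Geo g w' ∧ w'.length ≤ b.1.length + b.2.length + Lb g nl := by
  obtain ⟨f, y, sw, e1, hs, he⟩ := h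
  obtain ⟨sh, h1, h2⟩ := Lb_short hs
  obtain ⟨w', i1, i2, i3⟩ := exists_geo (g := g) (f ++ sh)
  refine ⟨w', by rw [i1, he]; simp [h1], i2, ?_⟩
  have := congrArg List.length e1
  simp at this i3
  omega

lemma no_comp {c n0 : ℕ} (hP : Piece g c n0) (E D nl : ℕ) : ∃ K1, ∀ (b : List A × List A)
    (rest : List A) (a : A), b.2.length = D → Red g n0 E (b.1 ++ rest) → K1 < rest.length →
      ¬ Comp g nl b (ev g rest * g a) := by
  obtain ⟨K1, hK1⟩ := lemL hP E (nl + 1 + (D + Lb g nl))
  refine ⟨K1, ?_⟩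
  rintro b rest a hD hR hlen ⟨f, y, sw, e1, hs, he⟩
  rcases List.append_eq_append_iff.1 e1 with ⟨t, h1, h2⟩ | ⟨t, h1, h2⟩
  · obtain ⟨sh, i1, i2⟩ := Lb_short hs
    have ht : t.length ≤ D := by
      have := congrArg List.length h2
      simp at this
      omega
    have : Small g (nl + 1 + (D + Lb g nl)) (ev g rest) := by
      refine ⟨[], [a], t ++ sh, by simp, by simp; omega, by simp; omega, ?_⟩
      rw [h1, ev_append, mul_assoc] at he
      have := mul_left_cancel he
      simp [this, i1]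
    have := hK1 rest hR.right this
    omega
  · have h3 : ev g (t ++ rest) * ev g [a] = ev g sw := by
      rw [h1, ev_append, mul_assoc] at he
      have := mul_left_cancel he
      simp [← this, mul_assoc]
    rw [← h3] at hs
    have hr : Red g n0 E (t ++ rest) := Red.right (a := f) (by simpa [h1] using hR)
    have := hK1 _ hr ((hs.drop_right (m := 1) (by simp)).mono (by omega))
    simp at this
    omega

theorem reducer {c n0 : ℕ} (hP : Piece g c n0) (nl : ℕ) (hnl : n0 ≤ nl) :
    ∃ D E k0, ∀ k, k0 ≤ k →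
      (∀ bs w, RInv g n0 E k D nl bs w → Red g n0 E (flat bs ++ w)) ∧
      (∀ (o : Option (List A × List A)) (w : List A) (a : A), ∃ w' : List A,
        (w'.length ≤ w.length + 1 ∧ ∀ bs, bs.head? = o → RInv g n0 E k D nl bs w →
          RInv g n0 E k D nl bs w' ∧ ev g (flat bs ++ w') = ev g (flat bs ++ w) * g a) ∨
        (∃ b, o = some b ∧ ∀ bs, RInv g n0 E k D nl (b :: bs) w →
          w'.length ≤ k + D + Lb g nl ∧ RInv g n0 E k D nl bs w' ∧
            ev g (flat bs ++ w') = ev g (flat (b :: bs) ++ w) * g a)) ∧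
      (∀ bs (w1 e W : List A), w1.length = k → e.length = D →
        RInv g n0 E k D nl bs (w1 ++ e ++ W) → RInv g n0 E k D nl ((w1, e) :: bs) (e ++ W)) := by
  obtain ⟨D, E, hE, hJ⟩ := junction hP
  obtain ⟨m', hglue⟩ := glue hP E
  obtain ⟨K1, hK1⟩ := no_comp hP E D nl
  refine ⟨D, E, m' + K1 + 1, fun k hk => ?_⟩
  have R1 : ∀ bs w, RInv g n0 E k D nl bs w → Red g n0 E (flat bs ++ w) := by
    rintro bs w ⟨h1, h2, h3⟩
    cases bs with
    | nil =>
      intro a f b e hs
      have e' : w = a ++ f ++ b := by simpa [flat] using e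
      have : Geo g f := Geo.mid (a := a) (b := b) (e' ▸ h2)
      exact le_trans (this.le_Lb hs) hE
    | cons b bs =>
      obtain ⟨⟨l1, l2, W, x, hG, hs, hN⟩, -⟩ := h3
      exact hglue _ _ _ (by omega) h1 (hJ nl hnl _ _ W x w hG l2 hN h2 hs.symm)
  have low : ∀ (a : A) bs (rest : List A), Blocks g k D nl bs (ev g rest) →
      Red g n0 E (flat bs ++ rest) → k ≤ rest.length → Blocks g k D nl bs (ev g rest * g a) := by
    intro a bs
    induction bs with
    | nil => intros; trivial
    | cons b bs ih =>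
      intro rest hB hR hlen
      have hR' : Red g n0 E (flat bs ++ (b.1 ++ rest)) := by simpa [flat] using hR
      refine ⟨hB.1.extend a (hK1 b rest a hB.1.2.1 hR'.right (by omega)), ?_⟩
      have := ih (b.1 ++ rest) (by simpa using hB.2) hR' (by simp; omega)
      simpa [mul_assoc] using this
  refine ⟨R1, ?_, ?_⟩
  · intro o w a
    obtain ⟨w1, i1, i2, i3⟩ := exists_geo (g := g) (w ++ [a])
    have i1' : ev g w1 = ev g w * g a := by simpa using i1
    have lowb : ∀ b bs, RInv g n0 E k D nl (b :: bs) w →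
        Blocks g k D nl bs (ev g b.1 * (ev g w * g a)) := by
      intro b bs hI
      have := low a bs (b.1 ++ w) (by simpa using hI.2.2.2) (by simpa [flat] using R1 _ _ hI)
        (by simp [hI.2.2.1.1])
      simpa [mul_assoc] using this
    cases o with
    | none =>
      refine ⟨w1, Or.inl ⟨by simpa using i3, fun bs hbs hI => ?_⟩⟩
      have : bs = [] := by simpa using hbs
      subst this
      exact ⟨⟨hI.1, i2, trivial⟩, by simp [flat, i1']⟩
    | some b =>
      by_cases hc : Comp g nl b (ev g w * g a)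
      · obtain ⟨w2, j1, j2, j3⟩ := hc.short
        refine ⟨w2, Or.inr ⟨b, rfl, fun bs hI => ⟨?_, ⟨?_, j2, ?_⟩, ?_⟩⟩⟩
        · have := hI.2.2.1.1
          have := hI.2.2.1.2.1
          omega
        · exact Red.left (b := b.1) hI.1
        · rw [j1]; exact lowb b bs hI
        · simp [flat, j1, mul_assoc]
      · refine ⟨w1, Or.inl ⟨by simpa using i3, fun bs hbs hI => ?_⟩⟩
        obtain ⟨bs', rfl⟩ : ∃ bs', bs = b :: bs' := by
          cases bs with
          | nil => simp at hbs
          | cons b' bs' => simp at hbs; exact ⟨bs', by rw [hbs]⟩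
        refine ⟨⟨hI.1, i2, ?_⟩, by simp [i1', mul_assoc]⟩
        rw [i1']
        exact ⟨hI.2.2.1.extend a hc, lowb b bs' hI⟩
  · intro bs w1 e W h1 h2 hI
    have hR := R1 _ _ hI
    refine ⟨Red.left (b := e ++ W) (by simpa [flat] using hR),
      Geo.right (a := w1) (by simpa using hI.2.1), ⟨h1, h2, W, [], hI.2.1, by simp, ?_⟩, ?_⟩
    · intro f y x1 x2 _ e2 hx1
      exfalso
      exact hx1 (List.append_eq_nil_iff.1 e2.symm).1
    · simpa using hI.2.2

end Pool.Agent.Lib.MP_dd8e80_al
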