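import Mathlib
import Pool.Agent.Lib.MP_dd8e80_al.Reducer
import Pool.Agent.Lib.MP_dd8e80_al.Grammar

namespace Pool.Agent.Lib.MP_dd8e80_al

open MulOpposite

variable {A M : Type*} [Monoid M] (g : A → M)

def gop : A → Mᵐᵒᵖ := fun a => op (g a)

variable {g}

lemma ev_op (w : List A) : ev (gop g) w = op (ev g w.reverse) := by
  induction w with
  | nil => simp
  | cons a w ih => simp [ih, gop]

lemma small_op {n : ℕ} {s : M} (h : Small g n s) : Small (gop g) n (op s) := by
  obtain ⟨p, q, r, h1, h2, h3, h4⟩ := h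
  refine ⟨q.reverse, p.reverse, r.reverse, by simpa, by simpa, by simpa, ?_⟩
  simp only [ev_op, List.reverse_reverse, ← h4, op_mul, mul_assoc]

lemma small_op' {n : ℕ} {w : List A} (h : Small g n (ev g w.reverse)) :
    Small (gop g) n (ev (gop g) w) := by
  rw [ev_op]; exact small_op h

lemma geo_unop {w : List A} (h : Geo (gop g) w) : Geo g w.reverse := by
  intro w' hw'
  have := h w'.reverse (by simp [ev_op, hw'])
  simpa using this

lemma sepd_op {n : ℕ} {x : List A} (h : Sepd g n x.reverse) : Sepd (gop g) n x := by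
  intro W1 Y W2 e hY
  obtain ⟨P, P', Y1, Y2, Q', Q, f1, f2, f3, f4, f5⟩ :=
    h W2.reverse Y.reverse W1.reverse (by simp [e]) (by simpa using hY)
  refine ⟨Q.reverse, Q'.reverse, Y2.reverse, Y1.reverse, P'.reverse, P.reverse, ?_, ?_, ?_,
    small_op' (by simpa using f5), small_op' (by simpa using f4)⟩
  · rw [← List.reverse_append, ← f3, List.reverse_reverse]
  · rw [← List.reverse_append, ← f2, List.reverse_reverse]
  · rw [← List.reverse_append, ← f1, List.reverse_reverse]

lemma cut_op {c : ℕ} {u1 u2 v1 v2 : List A}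
    (h : Cut g c u2.reverse u1.reverse v2.reverse v1.reverse) : Cut (gop g) c u1 u2 v1 v2 := by
  obtain ⟨⟨α, β, h1, h2, h3⟩, ⟨p, q, h4, h5, h6⟩⟩ := h
  refine ⟨⟨p.reverse, q.reverse, by simpa, by simpa, ?_⟩,
    ⟨α.reverse, β.reverse, by simpa, by simpa, ?_⟩⟩
  · simp only [ev_op, List.reverse_reverse, ← op_mul, h6]
  · simp only [ev_op, List.reverse_reverse, ← op_mul, h3]

lemma piece_op {c n : ℕ} (h : Piece g c n) : Piece (gop g) c n := by
  intro u1 a u2 v hv he
  obtain ⟨P, P', Q', Q, v1, v2, f1, f2, f3, f4, f5, f6, f7⟩ :=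
    h u2.reverse a u1.reverse v.reverse (by simpa using hv) (by
      simp only [ev_op] at he
      simpa using op_injective he)
  refine ⟨Q.reverse, Q'.reverse, P'.reverse, P.reverse, v2.reverse, v1.reverse, ?_, ?_, ?_,
    small_op' (by simpa using f4), sepd_op (by simpa using f5), cut_op (by simpa using f7),
    cut_op (by simpa using f6)⟩
  · rw [← List.reverse_append, ← f2, List.reverse_reverse]
  · rw [← List.reverse_append, ← f1, List.reverse_reverse]
  · rw [← List.reverse_append, ← f3, List.reverse_reverse]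

section reach
variable {Z : Type*} {C : Z → M → M → Prop} {z0 : Z}

lemma Reach.sound {Pc : List A → Prop} (h0 : C z0 1 1) {z : Z} {v : List A}
    (h : Reach g C z0 Pc z v) : ∃ p : List A, C z (ev g p) (ev g v) := by
  induction h with
  | base => exact ⟨[], h0⟩
  | left z z' v t _ hs ih =>
    obtain ⟨p, hp⟩ := ih
    exact ⟨p ++ t, by simpa using hs _ _ hp⟩
  | right z z' v y _ _ hs ih =>
    obtain ⟨p, hp⟩ := ih
    exact ⟨p, by simpa using hs _ _ hp⟩

lemma Reach.bounded {n E : ℕ} {z : Z} {v : List A}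
    (h : Reach g C z0 (fun y => Small g n (ev g y)) z v) (hR : Red g n E v) :
    Reach g C z0 (fun y => y.length ≤ E) z v := by
  induction h with
  | base => exact Reach.base
  | left z z' v t _ hs ih => exact Reach.left z z' v t (ih hR) hs
  | right z z' v y _ hy hs ih =>
    exact Reach.right z z' v y (ih hR.left) (hR v y [] (by simp) hy) hs

lemma Reach.trans {Pc : List A → Prop} {z z' : Z} {v v' : List A}
    (h : Reach g C z0 Pc z v) (h' : Reach g C z Pc z' v') : Reach g C z0 Pc z' (v ++ v') := by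
  induction h' with
  | base => simpa using h
  | left z1 z2 v1 t _ hs ih => exact Reach.left z1 z2 _ t ih hs
  | right z1 z2 v1 y _ hy hs ih =>
    rw [← List.append_assoc]
    exact Reach.right z1 z2 _ y ih hy hs

lemma Reach.split {E : ℕ} {z' : Z} {v : List A} (h : Reach g C z0 (fun y => y.length ≤ E) z' v) :
    ∀ w x, v = w ++ x → ∃ w0 t z, w = w0 ++ t ∧ t.length ≤ E ∧
      Reach g C z0 (fun y => y.length ≤ E) z w0 ∧
      Reach g C z (fun y => y.length ≤ E) z' (t ++ x) := by
  induction h with
  | base =>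
    intro w x e
    obtain ⟨rfl, rfl⟩ := List.append_eq_nil_iff.1 e.symm
    exact ⟨[], [], z0, rfl, by simp, Reach.base, Reach.base⟩
  | left z z' v t _ hs ih =>
    intro w x e
    obtain ⟨w0, t', z1, f1, f2, f3, f4⟩ := ih w x e
    exact ⟨w0, t', z1, f1, f2, f3, Reach.left z z' _ t f4 hs⟩
  | right z z' v y hv hy hs ih =>
    intro w x e
    rcases List.append_eq_append_iff.1 e with ⟨t, h1, h2⟩ | ⟨t, h1, h2⟩
    · refine ⟨v, t, z, h1, ?_, hv, ?_⟩
      · have := congrArg List.length h2
        simp at this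
        omega
      · rw [← h2]
        simpa using Reach.right z z' [] y Reach.base hy hs
    · obtain ⟨w0, t', z1, f1, f2, f3, f4⟩ := ih w t h1
      refine ⟨w0, t', z1, f1, f2, f3, ?_⟩
      rw [h2, ← List.append_assoc]
      exact Reach.right z z' _ y f4 hy hs

variable (g C z0) in
def cls (E : ℕ) (w : List A) : List A → Set Z :=
  fun x => {z | Reach g C z0 (fun y => y.length ≤ E) z (w ++ x)}

lemma cls_finite [Finite A] [Finite Z] (E : ℕ) : (Set.range (cls g C z0 E)).Finite := by
  let F : Set (List A × Z) → List A → Set Z := fun S x =>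
    {z' | ∃ p ∈ S, Reach g C p.2 (fun y => y.length ≤ E) z' (p.1 ++ x)}
  have hfin : ({l : List A | l.length ≤ E} ×ˢ (Set.univ : Set Z)).Finite :=
    (List.finite_length_le A E).prod Set.finite_univ
  refine (hfin.powerset.image F).subset ?_
  rintro _ ⟨w, rfl⟩
  refine ⟨{p | p.1.length ≤ E ∧ ∃ w0, w = w0 ++ p.1 ∧
    Reach g C z0 (fun y => y.length ≤ E) p.2 w0}, fun p hp => ⟨hp.1, trivial⟩, ?_⟩
  funext x
  ext z'
  constructor
  · rintro ⟨p, ⟨-, w0, rfl, h1⟩, h2⟩
    have := h1.trans h2
    simpa [cls] using this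
  · intro h
    obtain ⟨w0, t, z, f1, f2, f3, f4⟩ := Reach.split h w x rfl
    exact ⟨(t, z), ⟨f2, w0, f1, f3⟩, f4⟩

end reach

variable (g) in
def Sync {Z : Type*} (C R : Z → M → M → Prop) (z0 : Z) (E Lf : ℕ) (w1 α β U : List A) : Prop :=
  ∃ s f U1 U2 z, w1 = s ++ f ∧ f.length ≤ Lf ∧ U = U1 ++ U2 ∧
    Reach g C z0 (fun y => y.length ≤ E) z U1 ∧ R z (ev g (s.reverse ++ β)) (ev g (U2 ++ α))

lemma hard [Finite A] [IsCancelMul M] {Z : Type*} {C R : Z → M → M → Prop} {z0 : Z} {c n0 : ℕ}
    (S : Spine g Z C R z0 c n0) {E k D : ℕ} {b : List A × List A} {rest α β U : List A}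
    (hk : Lb g (n0 + c) + Lb g (c + c) < k) (hU : Red g n0 E U)
    (hB : BlockOK (gop g) k D (n0 + c) b (ev (gop g) rest)) (hα : α.length ≤ c)
    (hβ : β.length ≤ c) (hN : ¬ Sync g C R z0 E (Lb g (n0 + c)) b.1 α β U) :
    ev g (b.1 ++ rest).reverse * ev g β ≠ ev g U * ev g α := by
  intro he
  obtain ⟨w1, e⟩ := b
  obtain ⟨l1, l2, W, x, hG, hs, hL⟩ := hB
  simp only at l1 l2 hG hs hL he hN
  have hG' := geo_unop hG
  have hs' : ev g rest.reverse = ev g (e ++ W ++ x).reverse := by
    simp only [ev_op] at hs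
    exact (op_injective hs).symm
  obtain ⟨a, t, hat⟩ : ∃ a t, w1.reverse = a :: t := by
    cases h : w1.reverse with
    | nil =>
      have h0 : w1 = [] := by simpa using h
      rw [h0] at l1
      simp at l1
      omega
    | cons a t => exact ⟨a, t, rfl⟩
  have hw1 : w1 = t.reverse ++ [a] := by
    have := congrArg List.reverse hat
    simpa using this
  have hlen : t.length + 1 = k := by rw [← l1, hw1]; simp
  have key : ∀ P P' t1 t2, x.reverse ++ W.reverse ++ e.reverse = P ++ P' → t = t1 ++ t2 →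
      Small g (n0 + c) (ev g (P' ++ a :: t1)) → t1.length + 1 ≤ Lb g (n0 + c) := by
    intro P P' t1 t2 e1 e2 hsm
    have hin : ∀ r, W.reverse ++ e.reverse = r ++ P' → t1.length + 1 ≤ Lb g (n0 + c) := by
      intro r hr
      have : Geo g (P' ++ a :: t1) := Geo.mid (a := r) (b := t2) (by
        have : (w1 ++ e ++ W).reverse = r ++ (P' ++ a :: t1) ++ t2 := by
          rw [List.reverse_append, List.reverse_append, hat, ← List.append_assoc, hr, e2]
          simp
        rw [← this]; exact hG')
      have := this.le_Lb hsm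
      simp at this
      omega
    rw [List.append_assoc] at e1
    rcases List.append_eq_append_iff.1 e1 with ⟨r, h1, h2⟩ | ⟨r, h1, h2⟩
    · exact hin r h2
    · by_cases hr : r = []
      · exact hin [] (by simp [h2, hr])
      · exfalso
        refine hL t2.reverse ((a :: t1).reverse ++ e) r.reverse P.reverse (by simp [hw1, e2]) ?_
          (by simpa using hr) (small_op' ?_)
        · rw [← List.reverse_append, ← h1, List.reverse_reverse]
        · rw [h2] at hsm
          simpa using hsm
  have he' : ev g ((x.reverse ++ W.reverse ++ e.reverse) ++ a :: (t ++ β)) = ev g (U ++ α) := by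
    rw [ev_append g U, ← he, List.reverse_append, ev_append g rest.reverse, hs', hat]
    simp [mul_assoc]
  by_cases hv : U ++ α = []
  · have := key [] _ t [] rfl (by simp) ⟨[], β, [], by simp, by omega, by simp, by
      rw [hv] at he'
      simpa [mul_assoc] using he'⟩
    omega
  obtain ⟨P, P', Q', Q, v1, v2, z, z', f1, f2, f3, f4, -, -, -, f8, f9, f10⟩ :=
    S.piece _ a _ _ hv he'
  rcases List.append_eq_append_iff.1 f2 with ⟨r, h1, h2⟩ | ⟨r, h1, h2⟩
  · have hr : r.length ≤ c := by
      have := congrArg List.length h2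
      simp at this
      omega
    have hsm : Small g (n0 + c) (ev g (P' ++ a :: t)) := by
      refine Small.drop_right (q := r) ?_ hr
      rw [← ev_append]
      simpa [h1] using f4
    have := key P P' t [] f1 (by simp) hsm
    omega
  have hq := key P P' Q' r f1 h1 (f4.mono (by omega))
  rcases List.append_eq_append_iff.1 f3 with ⟨s, i1, i2⟩ | ⟨s, i1, i2⟩
  · obtain ⟨p', q', j1, j2, j3⟩ := S.shortC z' _ _ f8
    have hv2 : v2.length ≤ c := by
      have := congrArg List.length i2
      simp at this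
      omega
    have hsm : Small g (c + c) (ev g r) := by
      refine ⟨p', β, q' ++ v2, by omega, by omega, by simp; omega, ?_⟩
      have := S.hCR z' _ _ _ _ j3 f9
      rw [h2] at this
      simpa [mul_assoc] using this
    have hg : Geo g r := Geo.right (a := W.reverse ++ e.reverse ++ a :: Q') (by
      have : (w1 ++ e ++ W).reverse = W.reverse ++ e.reverse ++ a :: Q' ++ r := by
        rw [List.reverse_append, List.reverse_append, hat, h1]
        simp
      rw [← this]; exact hG')
    have := hg.le_Lb hsm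
    have := congrArg List.length h1
    simp at this
    omega
  · apply hN
    refine ⟨r.reverse, (a :: Q').reverse, v1, s, z', by simp [hw1, h1], by simpa using hq, i1,
      f10.bounded (Red.left (b := s) (i1 ▸ hU)), ?_⟩
    rw [List.reverse_reverse, ← h2, ← i2]
    exact f9

lemma sync_short [Finite A] [IsCancelMul M] {Z : Type*} {C R : Z → M → M → Prop} {z0 : Z}
    {c n0 : ℕ} (S : Spine g Z C R z0 c n0) (E k : ℕ) : ∃ K, ∀ (s β α U1 U2 : List A) (z : Z),
      s.length ≤ k → β.length ≤ c → α.length ≤ c → Red g n0 E (U1 ++ U2) →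
      Reach g C z0 (fun y => y.length ≤ E) z U1 →
      R z (ev g (s.reverse ++ β)) (ev g (U2 ++ α)) → U2.length ≤ K := by
  obtain ⟨K, hK⟩ := lemL S.toPiece E (c + k + c)
  refine ⟨K, fun s β α U1 U2 z hs hβ hα hU hRe hR => hK U2 hU.right ?_⟩
  obtain ⟨p, hp⟩ := hRe.sound S.hC0
  obtain ⟨p', q', j1, j2, j3⟩ := S.shortC z _ _ hp
  refine ⟨q', α, p' ++ (s.reverse ++ β), by omega, by omega, by simp; omega, ?_⟩
  have := S.hCR z _ _ _ _ j3 hR
  rw [ev_append g p', this]
  simp [mul_assoc]

end Pool.Agent.Lib.MP_dd8e80_al
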