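import Mathlib
import Pool.Agent.Lib.MP_dd8e80_al.Defs

namespace Pool.Agent.Lib.MP_dd8e80_al

universe u

def enc {B : Type u} (st : List B) : List (Option B) := st.map some ++ [none]

def rep {B : Type u} (X : Option B) (γ : List B) : List (Option B) :=
  match X with
  | none => γ.map some ++ [none]
  | some _ => γ.map some

lemma enc_cons {B : Type u} {st : List B} {X : Option B} {s : List (Option B)}
    (h : enc st = X :: s) : st.head? = X ∧ ∀ γ, rep X γ ++ s = enc (γ ++ st.tail) := by
  cases st with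
  | nil =>
    simp [enc] at h
    obtain ⟨rfl, rfl⟩ := h
    simp [rep, enc]
  | cons b st =>
    simp [enc] at h
    obtain ⟨rfl, rfl⟩ := h
    simp [rep, enc]

lemma enc_eq {B : Type u} (st : List B) : ∃ s, enc st = st.head? :: s := by
  cases st with
  | nil => exact ⟨[], rfl⟩
  | cons b st => exact ⟨enc st, rfl⟩

theorem dcf_of_inv0 {α Q B : Type u} [Finite Q] [Finite B] (L : Language α)
    (Inv Mid : List α → Q → List B → Prop) (q0 : Q) (h0 : Inv [] q0 [])
    (hstep : ∀ q o a, ∃ q' γ, ∀ h st, st.head? = o → Inv h q st →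
      Mid (h ++ [a]) q' (γ ++ st.tail))
    (hnorm : ∀ q o, ∃ q' γ, ∀ h st, st.head? = o → Mid h q st → Inv h q' (γ ++ st.tail))
    (hacc : ∀ q o, ∃ b : Prop, ∀ h st, st.head? = o → Inv h q st → (h ∈ L ↔ b)) :
    IsDCF L := by
  classical
  choose sq sγ hs using hstep
  choose nq nγ hn using hnorm
  choose ac ha using hacc
  let M : DPDA α ((Q × Bool) ⊕ Q ⊕ Q) (Option B) :=
    { start := .inr (.inr q0)
      bottom := none
      final := {s | ∃ q, s = .inl (q, true)}
      trans := fun s o X =>
        match s, o with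
        | .inl (q, _), some a => some (.inr (.inl (sq q X a)), rep X (sγ q X a))
        | .inl _, none => none
        | .inr (.inl q), none => some (.inr (.inr (nq q X)), rep X (nγ q X))
        | .inr (.inl _), some _ => none
        | .inr (.inr q), none => some (.inl (q, decide (ac q X)), [X])
        | .inr (.inr _), some _ => none
      det := by
        rintro (⟨q, b⟩ | q | q) X a h
        · exact absurd rfl h
        · rfl
        · rfl }
  refine ⟨_, _, inferInstance, inferInstance, M, ?_⟩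
  let P : ((Q × Bool) ⊕ Q ⊕ Q) → List α → List B → Prop := fun s h st =>
    match s with
    | .inl (q, b) => Inv h q st ∧ (h ∈ L ↔ b = true)
    | .inr (.inl q) => Mid h q st
    | .inr (.inr q) => Inv h q st
  have sound : ∀ (w : List α) (c : ((Q × Bool) ⊕ Q ⊕ Q) × List α × List (Option B)),
      Relation.ReflTransGen M.Step (M.start, w, [M.bottom]) c →
      ∃ h st, w = h ++ c.2.1 ∧ c.2.2 = enc st ∧ P c.1 h st := by
    intro w c hc
    induction hc with
    | refl => exact ⟨[], [], rfl, rfl, h0⟩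
    | tail _ hstep ih =>
      obtain ⟨h, st, hw, hst, hP⟩ := ih
      cases hstep with
      | read q q' a w' X γ s ht =>
        simp only at hw hst hP
        obtain ⟨hX, hγ⟩ := enc_cons hst.symm
        rcases q with ⟨q, b⟩ | q | q
        · simp only [M, Option.some.injEq, Prod.mk.injEq] at ht
          obtain ⟨rfl, rfl⟩ := ht
          exact ⟨h ++ [a], _, by simp [hw], hγ _, hs q X a h st hX hP.1⟩
        · simp [M] at ht
        · simp [M] at ht
      | eps q q' w' X γ s ht =>
        simp only at hw hst hP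
        obtain ⟨hX, hγ⟩ := enc_cons hst.symm
        rcases q with ⟨q, b⟩ | q | q
        · simp [M] at ht
        · simp only [M, Option.some.injEq, Prod.mk.injEq] at ht
          obtain ⟨rfl, rfl⟩ := ht
          exact ⟨h, _, hw, hγ _, hn q X h st hX hP⟩
        · simp only [M, Option.some.injEq, Prod.mk.injEq] at ht
          obtain ⟨rfl, rfl⟩ := ht
          refine ⟨h, st, hw, hst, hP, ?_⟩
          rw [ha q X h st hX hP]
          simp
  have peek : ∀ h q st rest, Inv h q st → ∃ b, M.Step (.inr (.inr q), rest, enc st)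
      (.inl (q, b), rest, enc st) ∧ (h ∈ L ↔ b = true) := by
    intro h q st rest hI
    obtain ⟨s, hs'⟩ := enc_eq st
    refine ⟨decide (ac q st.head?), ?_, ?_⟩
    · rw [hs']
      exact DPDA.Step.eps _ _ rest st.head? [st.head?] s rfl
    · rw [ha q _ h st rfl hI]
      simp
  have complete : ∀ h rest, ∃ q b st, Relation.ReflTransGen M.Step (M.start, h ++ rest, [M.bottom])
      (.inl (q, b), rest, enc st) ∧ Inv h q st ∧ (h ∈ L ↔ b = true) := by
    intro h
    induction h using List.reverseRecOn with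
    | nil =>
      intro rest
      obtain ⟨b, hb, hL⟩ := peek [] q0 [] rest h0
      exact ⟨q0, b, [], Relation.ReflTransGen.single hb, h0, hL⟩
    | append_singleton h a ih =>
      intro rest
      obtain ⟨q, b, st, hr, hI, _⟩ := ih (a :: rest)
      have hM := hs q _ a h st rfl hI
      have hI2 := hn _ _ _ _ rfl hM
      obtain ⟨b', hb', hL'⟩ := peek _ _ _ rest hI2
      refine ⟨_, b', _, ?_, hI2, hL'⟩
      have e : h ++ [a] ++ rest = h ++ a :: rest := by simp
      rw [e]
      refine ((hr.tail (c := (.inr (.inl (sq q st.head? a)), rest,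
        enc (sγ q st.head? a ++ st.tail))) ?_).tail ?_).tail hb'
      · obtain ⟨s, hs'⟩ := enc_eq st
        rw [← (enc_cons hs').2, hs']
        exact DPDA.Step.read _ _ a rest st.head? _ s rfl
      · obtain ⟨s, hs'⟩ := enc_eq (sγ q st.head? a ++ st.tail)
        rw [← (enc_cons hs').2, hs']
        exact DPDA.Step.eps _ _ rest _ _ s rfl
  ext w
  constructor
  · rintro ⟨q, ⟨q', rfl⟩, s, hr⟩
    obtain ⟨h, st, hw, _, hP⟩ := sound w _ hr
    simp only [List.append_nil] at hw
    subst hw
    exact hP.2.2 rfl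
  · intro hw
    obtain ⟨q, b, st, hr, _, hL⟩ := complete w []
    have hb := hL.1 hw
    subst hb
    exact ⟨_, ⟨q, rfl⟩, _, by simpa using hr⟩

theorem dcf_of_inv {α Q B : Type u} (L : Language α) (Qs : Set Q) (Bs : Set B)
    (hQ : Qs.Finite) (hB : Bs.Finite)
    (Inv Mid : List α → Q → List B → Prop) (q0 : Q) (h0 : Inv [] q0 [])
    (hInv : ∀ h q st, Inv h q st → q ∈ Qs ∧ ∀ b ∈ st, b ∈ Bs)
    (hMid : ∀ h q st, Mid h q st → q ∈ Qs ∧ ∀ b ∈ st, b ∈ Bs)
    (hstep : ∀ q o a, ∃ q' γ, ∀ h st, st.head? = o → Inv h q st →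
      Mid (h ++ [a]) q' (γ ++ st.tail))
    (hnorm : ∀ q o, ∃ q' γ, ∀ h st, st.head? = o → Mid h q st → Inv h q' (γ ++ st.tail))
    (hacc : ∀ q o, ∃ b : Prop, ∀ h st, st.head? = o → Inv h q st → (h ∈ L ↔ b)) :
    IsDCF L := by
  classical
  have := hQ.to_subtype
  have := hB.to_subtype
  have hq0 := (hInv _ _ _ h0).1
  have key : ∀ (I J : List α → Q → List B → Prop) (f : List α → List α),
      (∀ h q st, J h q st → q ∈ Qs ∧ ∀ b ∈ st, b ∈ Bs) → ∀ (q : Qs) (o : Option Bs),
      (∃ q' γ, ∀ h st, st.head? = o.map Subtype.val → I h q st → J (f h) q' (γ ++ st.tail)) →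
      ∃ (q' : Qs) (γ : List Bs), ∀ h (st : List Bs), st.head? = o →
        I h q (st.map Subtype.val) → J (f h) q' ((γ ++ st.tail).map Subtype.val) := by
    intro I J f hJ q o ⟨q', γ, H⟩
    by_cases hex : ∃ h, ∃ st : List Bs, st.head? = o ∧ I h q (st.map Subtype.val)
    · obtain ⟨h1, st1, ho1, hI1⟩ := hex
      have := hJ _ _ _ (H h1 _ (by rw [List.head?_map, ho1]) hI1)
      have hγ : ∀ b ∈ γ, b ∈ Bs := fun b hb => this.2 b (List.mem_append_left _ hb)
      lift γ to List Bs using hγ
      refine ⟨⟨q', this.1⟩, γ, fun h st ho hI => ?_⟩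
      have := H h _ (by rw [List.head?_map, ho]) hI
      rw [List.map_append, List.map_tail]
      exact this
    · exact ⟨⟨q0, hq0⟩, [], fun h st ho hI => absurd ⟨h, st, ho, hI⟩ hex⟩
  refine dcf_of_inv0 (Q := Qs) (B := Bs) L (fun h q st => Inv h q (st.map Subtype.val))
    (fun h q st => Mid h q (st.map Subtype.val)) ⟨q0, hq0⟩ h0 ?_ ?_ ?_
  · intro q o a
    exact key Inv Mid (fun h => h ++ [a]) hMid q o (hstep _ _ a)
  · intro q o
    exact key Mid Inv id hInv q o (hnorm _ _)
  · intro q o
    obtain ⟨b, hb⟩ := hacc q (o.map Subtype.val)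
    exact ⟨b, fun h st ho hI => hb h _ (by rw [List.head?_map, ho]) hI⟩

end Pool.Agent.Lib.MP_dd8e80_al
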