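import Mathlib
import Pool.Agent.Lib.MP_dd8e80_al.Machine
import Pool.Agent.Lib.MP_dd8e80_al.Hard

namespace Pool.Agent.Lib.MP_dd8e80_al

open MulOpposite

universe u

inductive Ctl (A Z : Type u) : Type u
  | p1 (w : List A) (an : List A → Set Z) (nu : Prop)
  | p2 (α β rem w : List A) (an : List A → Set Z) (nu ne : Prop)
  | dead

inductive Blk (A Z : Type u) : Type u
  | ub (b : List A × List A) (an : List A → Set Z)
  | pb (b : List A × List A)

structure Par where
  c : ℕ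
  n0 : ℕ
  E1 : ℕ
  k1 : ℕ
  D1 : ℕ
  E2 : ℕ
  k2 : ℕ
  D2 : ℕ
  Lf : ℕ

variable {A Z : Type u} {M : Type*} [Monoid M] (g : A → M) (C R : Z → M → M → Prop) (z0 : Z)

def ustack (E : ℕ) : List (List A × List A) → List (Blk A Z)
  | [] => []
  | b :: bs => Blk.ub b (cls g C z0 E (flat bs)) :: ustack E bs

def QS (E N : ℕ) : Set (Ctl A Z) := fun q =>
  match q with
  | .p1 w an _ => w.length ≤ N ∧ an ∈ Set.range (cls g C z0 E)
  | .p2 α β rem w an _ _ => α.length ≤ N ∧ β.length ≤ N ∧ rem.length ≤ N ∧ w.length ≤ N ∧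
      an ∈ Set.range (cls g C z0 E)
  | .dead => True

def BS (E N : ℕ) : Set (Blk A Z) := fun q =>
  match q with
  | .ub b an => b.1.length ≤ N ∧ b.2.length ≤ N ∧ an ∈ Set.range (cls g C z0 E)
  | .pb b => b.1.length ≤ N ∧ b.2.length ≤ N

lemma QS_finite [Finite A] [Finite Z] (E N : ℕ) : (QS g C z0 E N).Finite := by
  have hl := List.finite_length_le A N
  have hc := cls_finite (g := g) (C := C) (z0 := z0) E
  have hp : (Set.univ : Set Prop).Finite := Set.finite_univ
  have h1 := (hl.prod (hc.prod hp)).image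
    (fun t : List A × (List A → Set Z) × Prop => Ctl.p1 t.1 t.2.1 t.2.2)
  have h2 := (hl.prod (hl.prod (hl.prod (hl.prod (hc.prod (hp.prod hp)))))).image
    (fun t : List A × List A × List A × List A × (List A → Set Z) × Prop × Prop =>
      Ctl.p2 t.1 t.2.1 t.2.2.1 t.2.2.2.1 t.2.2.2.2.1 t.2.2.2.2.2.1 t.2.2.2.2.2.2)
  refine ((h1.union h2).insert Ctl.dead).subset ?_
  rintro (⟨w, an, nu⟩ | ⟨α, β, rem, w, an, nu, ne⟩ | _) h
  · exact Or.inr (Or.inl ⟨(w, an, nu), ⟨h.1, h.2, trivial⟩, rfl⟩)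
  · exact Or.inr (Or.inr ⟨(α, β, rem, w, an, nu, ne),
      ⟨h.1, h.2.1, h.2.2.1, h.2.2.2.1, h.2.2.2.2, trivial, trivial⟩, rfl⟩)
  · exact Or.inl rfl

lemma BS_finite [Finite A] [Finite Z] (E N : ℕ) : (BS g C z0 E N).Finite := by
  have hl := List.finite_length_le A N
  have hc := cls_finite (g := g) (C := C) (z0 := z0) E
  have h1 := (hl.prod (hl.prod hc)).image
    (fun t : List A × List A × (List A → Set Z) => Blk.ub (t.1, t.2.1) t.2.2)
  have h2 := (hl.prod hl).image (fun t : List A × List A => (Blk.pb t : Blk A Z))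
  refine (h1.union h2).subset ?_
  rintro (⟨b, an⟩ | b) h
  · exact Or.inl ⟨(b.1, b.2, an), ⟨h.1, h.2.1, h.2.2⟩, rfl⟩
  · exact Or.inr ⟨b, ⟨h.1, h.2⟩, rfl⟩

def St (L : Language (Option A)) (N : ℕ) (P : Par) (n1 n2 : ℕ) (h : List (Option A)) :
    Ctl A Z → List (Blk A Z) → Prop
  | .p1 w an nu, st => ∃ (u : List A) (bs : List (List A × List A)), h = u.map some ∧
      (nu ↔ u ≠ []) ∧ st = ustack g C z0 P.E1 bs ∧ an = cls g C z0 P.E1 (flat bs) ∧
      RInv g P.n0 P.E1 P.k1 P.D1 P.n0 bs w ∧ ev g (flat bs ++ w) = ev g u ∧ w.length < n1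
  | .p2 α β rem w an nu ne, st => ∃ (u t : List A) (bs ps : List (List A × List A)),
      h = u.map some ++ none :: t.map some ∧ (nu ↔ u ≠ []) ∧ (ne ↔ t ≠ []) ∧
      st = ps.map Blk.pb ++ ustack g C z0 P.E1 bs ∧ an = cls g C z0 P.E1 (flat bs) ∧
      (∀ b ∈ bs, b.1.length = P.k1 ∧ b.2.length = P.D1) ∧ Red g P.n0 P.E1 (flat bs ++ rem) ∧
      rem.length ≤ P.k1 + P.D1 ∧ α.length ≤ P.c ∧ β.length ≤ P.c ∧
      RInv (gop g) P.n0 P.E2 P.k2 P.D2 (P.n0 + P.c) ps w ∧
      (∀ ps' b, ps = ps' ++ [b] → ¬ Sync g C R z0 P.E1 P.Lf b.1 α β (flat bs ++ rem)) ∧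
      (∃ q s0, ev g (flat bs ++ rem) * ev g α = q * ev g β ∧
        ev (gop g) t = op s0 * ev (gop g) (flat ps ++ w) ∧ q * s0 = ev g u) ∧ w.length < n2
  | .dead, st => (∀ h', h ++ h' ∉ L) ∧ ∀ b ∈ st, b ∈ BS g C z0 P.E1 N

variable {g C R z0}

lemma ustack_mem {E N k D : ℕ} (hk : k ≤ N) (hD : D ≤ N) {bs : List (List A × List A)}
    (h : ∀ b ∈ bs, b.1.length = k ∧ b.2.length = D) :
    ∀ x ∈ ustack g C z0 E bs, x ∈ BS g C z0 E N := by
  induction bs with
  | nil => simp [ustack]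
  | cons b bs ih =>
    intro x hx
    rcases List.mem_cons.1 hx with rfl | hx
    · have := h b (by simp)
      exact ⟨by omega, by omega, _, rfl⟩
    · exact ih (fun b' hb' => h b' (by simp [hb'])) x hx

lemma St.fin {L : Language (Option A)} {N : ℕ} {P : Par} {n1 n2 : ℕ}
    (h1 : n1 ≤ N) (h2 : n2 ≤ N) (h3 : P.k1 + P.D1 ≤ N) (h4 : P.k2 + P.D2 ≤ N) (h5 : P.c ≤ N)
    (h : List (Option A)) (q : Ctl A Z) (st : List (Blk A Z))
    (H : St g C R z0 L N P n1 n2 h q st) :
    q ∈ QS g C z0 P.E1 N ∧ ∀ b ∈ st, b ∈ BS g C z0 P.E1 N := by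
  rcases q with ⟨w, an, nu⟩ | ⟨α, β, rem, w, an, nu, ne⟩ | _
  · obtain ⟨u, bs, -, -, rfl, rfl, hI, -, hl⟩ := H
    exact ⟨⟨by omega, _, rfl⟩, ustack_mem (by omega) (by omega) hI.2.2.len⟩
  · obtain ⟨u, t, bs, ps, -, -, -, rfl, rfl, hb, -, i1, i2, i3, hI, -, -, hl⟩ := H
    refine ⟨⟨by omega, by omega, by omega, by omega, _, rfl⟩, fun x hx => ?_⟩
    rcases List.mem_append.1 hx with hx | hx
    · obtain ⟨b, hb', rfl⟩ := List.mem_map.1 hx
      have := hI.2.2.len b hb'
      exact ⟨by omega, by omega⟩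
    · exact ustack_mem (by omega) (by omega) hb x hx
  · exact ⟨trivial, H.2⟩

lemma St.mono {L : Language (Option A)} {N : ℕ} {P : Par} {n1 n2 m1 m2 : ℕ}
    {h : List (Option A)} {q : Ctl A Z} {st : List (Blk A Z)}
    (H : St g C R z0 L N P n1 n2 h q st)
    (h1 : ∀ w an nu, q = .p1 w an nu → w.length < m1)
    (h2 : ∀ α β rem w an nu ne, q = .p2 α β rem w an nu ne → w.length < m2) :
    St g C R z0 L N P m1 m2 h q st := by
  rcases q with ⟨w, an, nu⟩ | ⟨α, β, rem, w, an, nu, ne⟩ | _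
  · obtain ⟨u, bs, f1, f2, f3, f4, f5, f6, -⟩ := H
    exact ⟨u, bs, f1, f2, f3, f4, f5, f6, h1 _ _ _ rfl⟩
  · obtain ⟨u, t, bs, ps, f1, f2, f3, f4, f5, f6, f7, f8, f9, f10, f11, f12, f13, -⟩ := H
    exact ⟨u, t, bs, ps, f1, f2, f3, f4, f5, f6, f7, f8, f9, f10, f11, f12, f13,
      h2 _ _ _ _ _ _ _ rfl⟩
  · exact H

lemma keep {B : Type*} {st : List B} {o : Option B} (h : st.head? = o) :
    o.toList ++ st.tail = st := by
  subst h
  cases st <;> simp

lemma sep_unique (u : List A) : ∀ (u' : List A) (s s' : List (Option A)),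
    u.map some ++ none :: s = u'.map some ++ none :: s' → u = u' ∧ s = s' := by
  induction u with
  | nil => intro u' s s' h; cases u' <;> simp_all
  | cons a u ih =>
    intro u' s s' h
    cases u' with
    | nil => simp at h
    | cons a' u' =>
      simp only [List.map_cons, List.cons_append, List.cons.injEq, Option.some.injEq] at h
      obtain ⟨i1, i2⟩ := ih u' s s' h.2
      exact ⟨by rw [h.1, i1], i2⟩

def topU : Option (Blk A Z) → Option (List A × List A)
  | some (.ub b _) => some b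
  | _ => none

def topP : Option (Blk A Z) → Option (List A × List A)
  | some (.pb b) => some b
  | _ => none

lemma topU_ustack {E : ℕ} (bs : List (List A × List A)) :
    topU (ustack g C z0 E bs).head? = bs.head? := by
  cases bs <;> rfl

lemma topP_stack {E : ℕ} (ps bs : List (List A × List A)) :
    topP (ps.map Blk.pb ++ ustack g C z0 E bs).head? = ps.head? := by
  cases ps with
  | nil => cases bs <;> rfl
  | cons p ps => rfl

def Reduces {M : Type*} [Monoid M] (g : A → M) (n0 E k D nl L : ℕ) : Prop :=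
  (∀ bs w, RInv g n0 E k D nl bs w → Red g n0 E (flat bs ++ w)) ∧
  (∀ (o : Option (List A × List A)) (w : List A) (a : A), ∃ w' : List A,
    (w'.length ≤ w.length + 1 ∧ ∀ bs, bs.head? = o → RInv g n0 E k D nl bs w →
      RInv g n0 E k D nl bs w' ∧ ev g (flat bs ++ w') = ev g (flat bs ++ w) * g a) ∨
    (∃ b, o = some b ∧ ∀ bs, RInv g n0 E k D nl (b :: bs) w →
      w'.length ≤ k + D + L ∧ RInv g n0 E k D nl bs w' ∧
        ev g (flat bs ++ w') = ev g (flat (b :: bs) ++ w) * g a)) ∧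
  (∀ bs (w1 e W : List A), w1.length = k → e.length = D →
    RInv g n0 E k D nl bs (w1 ++ e ++ W) → RInv g n0 E k D nl ((w1, e) :: bs) (e ++ W))

lemma st_step {L : Language (Option A)} {N : ℕ} {P : Par} {L1 L2 : ℕ}
    (hL : ∀ w, w ∈ L ↔ ∃ u v : List A, u ≠ [] ∧ v ≠ [] ∧ ev g u = ev g v ∧ w = hw u v)
    (h3 : P.k1 + P.D1 ≤ N) (h4 : P.k2 + P.D2 ≤ N) (h5 : P.c ≤ N)
    (r1 : Reduces g P.n0 P.E1 P.k1 P.D1 P.n0 L1)
    (r2 : Reduces (gop g) P.n0 P.E2 P.k2 P.D2 (P.n0 + P.c) L2)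
    (q : Ctl A Z) (o : Option (Blk A Z)) (a : Option A) :
    ∃ q' γ, ∀ h st, st.head? = o → St g C R z0 L N P (P.k1 + P.D1) (P.k2 + P.D2) h q st →
      St g C R z0 L N P (P.k1 + P.D1 + L1 + 1) (P.k2 + P.D2 + L2 + 1) (h ++ [a]) q'
        (γ ++ st.tail) := by
  rcases q with ⟨w, an, nu⟩ | ⟨α, β, rem, w, an, nu, ne⟩ | _
  · cases a with
    | none =>
      refine ⟨.p2 [] [] w [] an nu False, o.toList, fun h st ho H => ?_⟩
      rw [keep ho]
      obtain ⟨u, bs, rfl, f2, f3, f4, f5, f6, f7⟩ := H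
      refine ⟨u, [], bs, [], by simp, f2, by simp, by simpa using f3, f4, f5.2.2.len, r1.1 _ _ f5,
        by omega, by simp, by simp, ⟨?_, ?_, trivial⟩, by simp, ⟨ev g u, 1, by simpa using f6,
          by simp [flat], by simp⟩, by simp⟩
      · intro a f b e _
        have := congrArg List.length e
        simp [flat] at this
        omega
      · intro w' _
        simp
    | some a =>
      obtain ⟨w', H1 | ⟨b, hb, H1⟩⟩ := r1.2.1 (topU o) w a
      · refine ⟨.p1 w' an True, o.toList, fun h st ho H => ?_⟩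
        rw [keep ho]
        obtain ⟨u, bs, rfl, f2, f3, f4, f5, f6, f7⟩ := H
        obtain ⟨i1, i2⟩ := H1.2 bs (by rw [← ho, f3, topU_ustack]) f5
        exact ⟨u ++ [a], bs, by simp, by simp, f3, f4, i1, by rw [i2, f6]; simp, by omega⟩
      · obtain ⟨anb, rfl⟩ : ∃ anb, o = some (Blk.ub b anb) := by
          rcases o with _ | ⟨b', anb⟩ | b' <;> simp [topU] at hb
          exact ⟨anb, by rw [hb]⟩
        refine ⟨.p1 w' anb True, [], fun h st ho H => ?_⟩
        obtain ⟨u, bs, rfl, f2, rfl, f4, f5, f6, f7⟩ := H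
        cases bs with
        | nil => simp [ustack] at ho
        | cons b' bs =>
          simp only [ustack, List.head?_cons, Option.some.injEq, Blk.ub.injEq] at ho
          obtain ⟨rfl, rfl⟩ := ho
          obtain ⟨i0, i1, i2⟩ := H1 bs f5
          exact ⟨u ++ [a], bs, by simp, by simp, rfl, rfl, i1, by rw [i2, f6]; simp, by omega⟩
  · cases a with
    | none =>
      refine ⟨.dead, [], fun h st ho H => ⟨?_, ?_⟩⟩
      · obtain ⟨u, t, bs, ps, rfl, -⟩ := H
        intro h' hmem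
        obtain ⟨u', v', -, -, -, e⟩ := (hL _).1 hmem
        have := (sep_unique u u' (t.map some ++ none :: h') _ (by simpa [hw] using e)).2
        have h2 : (none : Option A) ∈ v'.reverse.map some := by
          rw [List.map_reverse, ← this]; simp
        simp at h2
      · intro b hb
        exact (H.fin h3 h4 h3 h4 h5).2 b (List.mem_of_mem_tail (by simpa using hb))
    | some a =>
      obtain ⟨w', H1 | ⟨b, hb, H1⟩⟩ := r2.2.1 (topP o) w a
      · refine ⟨.p2 α β rem w' an nu True, o.toList, fun h st ho H => ?_⟩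
        rw [keep ho]
        obtain ⟨u, t, bs, ps, rfl, f2, f3, f4, f5, f6, f7, f8, f9, f10, f11, f12,
          ⟨q, s0, e1, e2, e3⟩, f14⟩ := H
        obtain ⟨i1, i2⟩ := H1.2 ps (by rw [← ho, f4, topP_stack]) f11
        exact ⟨u, t ++ [a], bs, ps, by simp, f2, by simp, f4, f5, f6, f7, f8, f9, f10, i1, f12,
          ⟨q, s0, e1, by rw [i2, ← mul_assoc, ← e2]; simp, e3⟩, by omega⟩
      · obtain rfl : o = some (Blk.pb b) := by
          rcases o with _ | ⟨b', anb⟩ | b' <;> simp [topP] at hb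
          rw [hb]
        refine ⟨.p2 α β rem w' an nu True, [], fun h st ho H => ?_⟩
        obtain ⟨u, t, bs, ps, rfl, f2, f3, rfl, f5, f6, f7, f8, f9, f10, f11, f12,
          ⟨q, s0, e1, e2, e3⟩, f14⟩ := H
        cases ps with
        | nil => cases bs <;> simp [ustack] at ho
        | cons b' ps =>
          simp only [List.map_cons, List.cons_append, List.head?_cons, Option.some.injEq,
            Blk.pb.injEq] at ho
          subst ho
          obtain ⟨i0, i1, i2⟩ := H1 ps f11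
          exact ⟨u, t ++ [a], bs, ps, by simp, f2, by simp, rfl, f5, f6, f7, f8, f9, f10, i1,
            fun ps' b e => f12 (b' :: ps') b (by simp [e]),
            ⟨q, s0, e1, by rw [i2, ← mul_assoc, ← e2]; simp, e3⟩, by omega⟩
  · refine ⟨.dead, [], fun h st ho H => ⟨fun h' => ?_, fun b hb => ?_⟩⟩
    · rw [List.append_assoc]; exact H.1 _
    · exact H.2 b (List.mem_of_mem_tail (by simpa using hb))

lemma cut3 (w : List A) {k D : ℕ} (h : k + D ≤ w.length) :
    ∃ w1 e W : List A, w = w1 ++ e ++ W ∧ w1.length = k ∧ e.length = D := by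
  refine ⟨w.take k, (w.drop k).take D, (w.drop k).drop D, ?_, by simp; omega, by simp; omega⟩
  rw [List.append_assoc, List.take_append_drop, List.take_append_drop]

lemma resync [IsCancelMul M] {c n0 : ℕ} (S : Spine g Z C R z0 c n0) {E : ℕ}
    {s w' U1 U2 α β α' β' t : List A} {z : Z} {x : M}
    (hRe : Reach g C z0 (fun y => y.length ≤ E) z U1)
    (hR : R z (ev g (s.reverse ++ β)) (ev g (U2 ++ α))) (hR' : R z (ev g β') (ev g α'))
    (H : ∃ q s0, ev g (U1 ++ U2) * ev g α = q * ev g β ∧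
      ev (gop g) t = op s0 * ev (gop g) (s ++ w') ∧ q * s0 = x) :
    ∃ q s0, ev g U1 * ev g α' = q * ev g β' ∧
      ev (gop g) t = op s0 * ev (gop g) w' ∧ q * s0 = x := by
  obtain ⟨q, s0, e1, e2, e3⟩ := H
  obtain ⟨p, hp⟩ := hRe.sound S.hC0
  have h1 := S.hCR z _ _ _ _ hp hR
  have h2 : ev g p * ev g s.reverse = q := by
    apply mul_right_cancel (b := ev g β)
    rw [← e1]
    simpa [mul_assoc] using h1
  refine ⟨ev g p, ev g s.reverse * s0, (S.hCR z _ _ _ _ hp hR').symm, ?_, ?_⟩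
  · rw [e2, ev_append, ev_op s, op_mul, mul_assoc]
  · rw [← mul_assoc, h2, e3]

lemma rinv_nil {M : Type*} [Monoid M] {g : A → M} {n0 E k D nl : ℕ} {s w : List A}
    (h : RInv g n0 E k D nl [] (s ++ w)) : RInv g n0 E k D nl [] w :=
  ⟨h.1, h.2.1.right, trivial⟩

lemma st_norm [IsCancelMul M] {L : Language (Option A)} {N : ℕ} {P : Par} {L1 L2 K : ℕ}
    (S : Spine g Z C R z0 P.c P.n0) (h1 : L1 < P.k1) (h2 : P.Lf + L2 < P.k2) (h3 : K < P.k1)
    (hK : ∀ (s β α U1 U2 : List A) (z : Z), s.length ≤ P.k2 → β.length ≤ P.c → α.length ≤ P.c →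
      Red g P.n0 P.E1 (U1 ++ U2) → Reach g C z0 (fun y => y.length ≤ P.E1) z U1 →
      R z (ev g (s.reverse ++ β)) (ev g (U2 ++ α)) → U2.length ≤ K)
    (r1 : Reduces g P.n0 P.E1 P.k1 P.D1 P.n0 L1)
    (r2 : Reduces (gop g) P.n0 P.E2 P.k2 P.D2 (P.n0 + P.c) L2)
    (q : Ctl A Z) (o : Option (Blk A Z)) :
    ∃ q' γ, ∀ h st, st.head? = o →
      St g C R z0 L N P (P.k1 + P.D1 + L1 + 1) (P.k2 + P.D2 + L2 + 1) h q st →
      St g C R z0 L N P (P.k1 + P.D1) (P.k2 + P.D2) h q' (γ ++ st.tail) := by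
  rcases q with ⟨w, an, nu⟩ | ⟨α, β, rem, w, an, nu, ne⟩ | _
  · by_cases hw : w.length < P.k1 + P.D1
    · refine ⟨.p1 w an nu, o.toList, fun h st ho H => ?_⟩
      rw [keep ho]
      exact H.mono (by rintro _ _ _ ⟨⟩; exact hw) (by rintro _ _ _ _ _ _ _ ⟨⟩)
    · obtain ⟨w1, e, W, rfl, l1, l2⟩ := cut3 w (not_lt.1 hw)
      refine ⟨.p1 (e ++ W) (fun x => an (w1 ++ x)) nu, Blk.ub (w1, e) an :: o.toList,
        fun h st ho H => ?_⟩
      rw [List.cons_append, keep ho]
      obtain ⟨u, bs, f1, f2, rfl, rfl, f5, f6, f7⟩ := H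
      refine ⟨u, (w1, e) :: bs, f1, f2, rfl, ?_, r1.2.2 _ _ _ _ l1 l2 f5, ?_, ?_⟩
      · funext x
        simp [cls, flat]
      · rw [← f6]; simp [flat]
      · simp at f7 ⊢
        omega
  · by_cases hw : w.length < P.k2 + P.D2
    · refine ⟨.p2 α β rem w an nu ne, o.toList, fun h st ho H => ?_⟩
      rw [keep ho]
      exact H.mono (by rintro _ _ _ ⟨⟩) (by rintro _ _ _ _ _ _ _ ⟨⟩; exact hw)
    obtain ⟨w1, e, W, rfl, l1, l2⟩ := cut3 w (not_lt.1 hw)
    by_cases hA : topP o = none ∧ ∃ s f r1 U2 z, w1 = s ++ f ∧ f.length ≤ P.Lf ∧ rem = r1 ++ U2 ∧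
        z ∈ an r1 ∧ R z (ev g (s.reverse ++ β)) (ev g (U2 ++ α))
    · obtain ⟨ht, s, f, r1, U2, z, rfl, lf, rfl, hz, hR⟩ := hA
      obtain ⟨β', α', j1, j2, hR'⟩ := S.shortR z _ _ hR
      refine ⟨.p2 α' β' r1 (f ++ e ++ W) an nu ne, o.toList, fun h st ho H => ?_⟩
      rw [keep ho]
      obtain ⟨u, t, bs, ps, f1, f2, f3, f4, rfl, f6, f7, f8, f9, f10, f11, f12, f13, f14⟩ := H
      obtain rfl : ps = [] := by
        rw [← ho, f4, topP_stack] at ht
        simpa using ht
      refine ⟨u, t, bs, [], f1, f2, f3, f4, rfl, f6, Red.left (b := U2) (by simpa using f7), ?_,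
        j2, j1, rinv_nil (s := s) (by simpa using f11), by simp, ?_, ?_⟩
      · simp at f8
        omega
      · exact resync S (s := s) (U2 := U2) hz hR hR' (by simpa [flat] using f13)
      · simp at f14 l1 ⊢
        omega
    by_cases hB : ∃ b anb s f r1 r2 z, o = some (Blk.ub b anb) ∧ w1 = s ++ f ∧ f.length ≤ P.Lf ∧
        b.1 = r1 ++ r2 ∧ z ∈ anb r1 ∧ R z (ev g (s.reverse ++ β)) (ev g ((r2 ++ rem) ++ α))
    · obtain ⟨b, anb, s, f, r1, r2, z, rfl, rfl, lf, hb, hz, hR⟩ := hB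
      obtain ⟨β', α', j1, j2, hR'⟩ := S.shortR z _ _ hR
      refine ⟨.p2 α' β' r1 (f ++ e ++ W) anb nu ne, [], fun h st ho H => ?_⟩
      obtain ⟨u, t, bs, ps, f1, f2, f3, rfl, rfl, f6, f7, f8, f9, f10, f11, f12, f13, f14⟩ := H
      obtain rfl : ps = [] := by
        cases ps with
        | nil => rfl
        | cons p ps => simp at ho
      cases bs with
      | nil => simp [ustack] at ho
      | cons b' bs =>
        simp only [List.map_nil, List.nil_append, ustack, List.head?_cons, Option.some.injEq,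
          Blk.ub.injEq] at ho
        obtain ⟨rfl, rfl⟩ := ho
        refine ⟨u, t, bs, [], f1, f2, f3, rfl, rfl, fun b hb => f6 b (by simp [hb]),
          Red.left (b := r2 ++ rem) (by simpa [flat, hb] using f7), ?_,
          j2, j1, rinv_nil (s := s) (by simpa using f11), by simp, ?_, ?_⟩
        · have := (f6 b' (by simp)).1
          rw [hb] at this
          simp at this
          omega
        · exact resync S (s := s) (U2 := r2 ++ rem) hz hR hR' (by simpa [flat, hb] using f13)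
        · simp at f14 l1 ⊢
          omega
    refine ⟨.p2 α β rem (e ++ W) an nu ne, Blk.pb (w1, e) :: o.toList, fun h st ho H => ?_⟩
    rw [List.cons_append, keep ho]
    obtain ⟨u, t, bs, ps, f1, f2, f3, rfl, rfl, f6, f7, f8, f9, f10, f11, f12, f13, f14⟩ := H
    refine ⟨u, t, bs, (w1, e) :: ps, f1, f2, f3, rfl, rfl, f6, f7, f8, f9, f10,
      r2.2.2 _ _ _ _ l1 l2 f11, ?_, by simpa [flat] using f13, by simp at f14 ⊢; omega⟩
    intro ps' b eb
    cases ps' with
    | cons p ps' =>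
      simp only [List.cons_append, List.cons.injEq] at eb
      exact f12 ps' b eb.2
    | nil =>
      simp only [List.nil_append, List.cons.injEq] at eb
      obtain ⟨rfl, rfl⟩ := eb
      rintro ⟨s, f, U1, U2, z, e1, lf, e2, hRe, hR⟩
      simp only at e1
      have hs : s.length ≤ P.k2 := by
        rw [← l1, e1]; simp
      have hU2 := hK s β α U1 U2 z hs f10 f9 (e2 ▸ f7) hRe hR
      have hA' : ∀ r, U1 = flat bs ++ r → rem = r ++ U2 → False := fun r i1 i2 =>
        hA ⟨by rw [← ho, topP_stack]; rfl, s, f, r, U2, z, e1, lf, i2, by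
          simp only [cls, Set.mem_ofPred_eq, ← i1, hRe], hR⟩
      rcases List.append_eq_append_iff.1 e2 with ⟨r, i1, i2⟩ | ⟨r, i1, i2⟩
      · exact hA' r i1 i2
      · cases bs with
        | nil =>
          simp only [flat] at i1
          obtain ⟨i3, i4⟩ := List.append_eq_nil_iff.1 i1.symm
          exact hA' [] (by simp [flat, i3]) (by simp [i2, i4])
        | cons b bs =>
          have lb := (f6 b (by simp)).1
          have lr : r.length ≤ K := by
            have := congrArg List.length i2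
            simp at this
            omega
          simp only [flat] at i1
          rcases List.append_eq_append_iff.1 i1 with ⟨r', i3, i4⟩ | ⟨r', i3, i4⟩
          · exact hB ⟨b, _, s, f, r', r, z, by rw [← ho]; rfl, e1, lf, i4, by
              simp only [cls, Set.mem_ofPred_eq, ← i3, hRe], by rw [← i2]; exact hR⟩
          · have := congrArg List.length i4
            simp at this
            omega
  · refine ⟨.dead, [], fun h st ho H => ⟨H.1, fun b hb => ?_⟩⟩
    exact H.2 b (List.mem_of_mem_tail (by simpa using hb))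

lemma st_acc [Finite A] [IsCancelMul M] {L : Language (Option A)} {N : ℕ} {P : Par} {K : ℕ}
    (hL : ∀ w, w ∈ L ↔ ∃ u v : List A, u ≠ [] ∧ v ≠ [] ∧ ev g u = ev g v ∧ w = hw u v)
    (S : Spine g Z C R z0 P.c P.n0) (h1 : P.Lf = Lb g (P.n0 + P.c))
    (h2 : Lb g (P.n0 + P.c) + Lb g (P.c + P.c) < P.k2) (h3 : K < P.k1)
    (hK : ∀ y, Red g P.n0 P.E1 y → Small g (P.c + P.k2 + P.D2) (ev g y) → y.length ≤ K)
    (q : Ctl A Z) (o : Option (Blk A Z)) :
    ∃ b : Prop, ∀ h st, st.head? = o →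
      St g C R z0 L N P (P.k1 + P.D1) (P.k2 + P.D2) h q st → (h ∈ L ↔ b) := by
  rcases q with ⟨w, an, nu⟩ | ⟨α, β, rem, w, an, nu, ne⟩ | _
  · refine ⟨False, fun h st ho H => ⟨fun hm => ?_, False.elim⟩⟩
    obtain ⟨u, bs, rfl, -⟩ := H
    obtain ⟨u', v', -, -, -, e⟩ := (hL _).1 hm
    have : (none : Option A) ∈ u.map some := by rw [e]; simp [hw]
    simp at this
  · refine ⟨o = none ∧ nu ∧ ne ∧ ev g w.reverse * ev g β = ev g rem * ev g α,
      fun h st ho H => ?_⟩
    obtain ⟨u, t, bs, ps, rfl, f2, f3, rfl, rfl, f6, f7, f8, f9, f10, f11, f12,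
      ⟨q, s0, e1, e2, e3⟩, f14⟩ := H
    have m1 : u.map some ++ none :: t.map some ∈ L ↔
        u ≠ [] ∧ t ≠ [] ∧ ev g u = ev g t.reverse := by
      rw [hL]
      constructor
      · rintro ⟨u', v', i1, i2, i3, e⟩
        obtain ⟨rfl, j⟩ := sep_unique _ _ _ _ e
        have : t = v'.reverse := List.map_injective_iff.2 (Option.some_injective _) j
        subst this
        exact ⟨i1, by simpa using i2, by simpa using i3⟩
      · rintro ⟨i1, i2, i3⟩
        exact ⟨u, t.reverse, i1, by simpa using i2, i3, by simp [hw]⟩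
    have m2 : ev g u = ev g t.reverse ↔
        ev g (flat ps ++ w).reverse * ev g β = ev g (flat bs ++ rem) * ev g α := by
      simp only [ev_op, ← op_mul] at e2
      rw [op_injective e2, ← e3, e1, mul_left_inj, mul_left_inj, eq_comm]
    rw [m1, m2, f2, f3]
    rcases List.eq_nil_or_concat ps with rfl | ⟨ps', b, rfl⟩
    · cases bs with
      | nil =>
        subst ho
        simp [flat, ustack]
      | cons b bs =>
        subst ho
        refine ⟨fun ⟨_, _, i⟩ => ?_, fun i => by simp [ustack] at i⟩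
        exfalso
        have := hK _ f7 ⟨[], α, w.reverse ++ β, by simp, by omega, by simp; omega, by
          simpa [flat] using i.symm⟩
        have lb := (f6 b (by simp)).1
        simp [flat] at this
        omega
    · simp only [List.concat_eq_append] at *
      refine ⟨fun ⟨_, _, i⟩ => ?_, fun i => ?_⟩
      · exfalso
        obtain ⟨j1, j2⟩ := f11.2.2.last
        rw [j2, List.append_assoc] at i
        exact hard S h2 f7 j1 f9 f10 (h1 ▸ f12 ps' b rfl) i
      · exfalso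
        rw [i.1] at ho
        simp at ho
  · exact ⟨False, fun h st ho H => ⟨fun hm => H.1 [] (by simpa using hm), False.elim⟩⟩

theorem dcf_of_spine [Finite A] [Finite Z] [IsCancelMul M] {L : Language (Option A)} {c n0 : ℕ}
    (hL : ∀ w, w ∈ L ↔ ∃ u v : List A, u ≠ [] ∧ v ≠ [] ∧ ev g u = ev g v ∧ w = hw u v)
    (S : Spine g Z C R z0 c n0) : IsDCF L := by
  obtain ⟨D1, E1, k01, r1⟩ := reducer S.toPiece n0 le_rfl
  obtain ⟨D2, E2, k02, r2⟩ := reducer (piece_op S.toPiece) (n0 + c) (by omega)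
  set k2 := k02 + Lb g (n0 + c) + Lb g (c + c) + Lb (gop g) (n0 + c) + 1 with hk2
  obtain ⟨K, hK⟩ := sync_short S E1 k2
  obtain ⟨K', hK'⟩ := lemL S.toPiece E1 (c + k2 + D2)
  set k1 := k01 + K + K' + Lb g n0 + 1 with hk1
  let P : Par := ⟨c, n0, E1, k1, D1, E2, k2, D2, Lb g (n0 + c)⟩
  set N := c + (k1 + D1 + Lb g n0 + 1) + (k2 + D2 + Lb (gop g) (n0 + c) + 1) with hN
  have r1' : Reduces g P.n0 P.E1 P.k1 P.D1 P.n0 (Lb g n0) := r1 k1 (by omega)
  have r2' : Reduces (gop g) P.n0 P.E2 P.k2 P.D2 (P.n0 + P.c) (Lb (gop g) (n0 + c)) :=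
    r2 k2 (by omega)
  have b1 : P.k1 + P.D1 ≤ N := by simp only [P]; omega
  have b2 : P.k2 + P.D2 ≤ N := by simp only [P]; omega
  have b3 : P.c ≤ N := by simp only [P]; omega
  refine dcf_of_inv L (QS g C z0 E1 N) (BS g C z0 E1 N) (QS_finite _ _ _ _ _) (BS_finite _ _ _ _ _)
    (St g C R z0 L N P (P.k1 + P.D1) (P.k2 + P.D2))
    (St g C R z0 L N P (P.k1 + P.D1 + Lb g n0 + 1) (P.k2 + P.D2 + Lb (gop g) (n0 + c) + 1))
    (.p1 [] (cls g C z0 E1 []) False) ?_ (St.fin b1 b2 b1 b2 b3)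
    (St.fin (by simp only [P]; omega) (by simp only [P]; omega) b1 b2 b3)
    (st_step hL b1 b2 b3 r1' r2')
    (st_norm (K := K) S (by simp only [P]; omega) (by simp only [P]; omega)
      (by simp only [P]; omega) hK r1' r2')
    (st_acc (K := K') hL S rfl (by simp only [P]; omega) (by simp only [P]; omega) hK')
  refine ⟨[], [], rfl, by simp, rfl, rfl, ⟨?_, ?_, trivial⟩, by simp [flat], ?_⟩
  · intro a f b e _
    have := congrArg List.length e
    simp [flat] at this
    omega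
  · intro w' _
    simp
  · simp only [P, List.length_nil]
    omega

theorem dcf_monoid [Finite A] [IsCancelMul M] {L : Language (Option A)}
    (hL : ∀ w, w ∈ L ↔ ∃ u v : List A, u ≠ [] ∧ v ≠ [] ∧ ev g u = ev g v ∧ w = hw u v)
    (h : L.IsContextFree) : IsDCF L := by
  obtain ⟨G, rfl⟩ := h
  have := (frag_finite (G := G)).to_subtype
  obtain ⟨z0, c, n0, S⟩ := extract hL
  exact dcf_of_spine hL S

end Pool.Agent.Lib.MP_dd8e80_al
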