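import Mathlib
import Pool.Agent.Lib.MP_dd8e80_al.Main

namespace Pool.Agent.Lib.MP_dd8e80_al

universe u

variable {S : Type u} [Semigroup S]

def lm (s : S) : Function.End S := fun x => s * x

lemma lm_mul (s t : S) : lm (s * t) = lm s * lm t := by
  funext x
  exact mul_assoc s t x

variable (S) in
def LM : Submonoid (Function.End S) where
  carrier := {f | f = 1 ∨ ∃ s, f = lm s}
  one_mem' := Or.inl rfl
  mul_mem' := by
    rintro f g (rfl | ⟨s, rfl⟩) (rfl | ⟨t, rfl⟩)
    · exact Or.inl (one_mul _)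
    · exact Or.inr ⟨t, one_mul _⟩
    · exact Or.inr ⟨s, mul_one _⟩
    · exact Or.inr ⟨s * t, (lm_mul s t).symm⟩

variable [IsCancelMul S]

lemma lm_inj {s t : S} (h : lm s = lm t) : s = t :=
  mul_right_cancel (congrFun h s)

lemma lm_one {b c : S} (h : b * c = c) : lm b = 1 := by
  have h2 : b * b = b := mul_right_cancel (b := c) (by rw [mul_assoc, h, h])
  funext y
  exact mul_left_cancel (a := b) (by
    change b * (b * y) = b * y
    rw [← mul_assoc, h2])

lemma LM_cancel : IsCancelMul (LM S) where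
  mul_left_cancel := by
    rintro ⟨f, hf⟩ ⟨g, hg⟩ ⟨h, hh⟩ e
    have e' : f * g = f * h := congrArg Subtype.val e
    apply Subtype.ext
    rcases hf with rfl | ⟨s, rfl⟩
    · simpa using e'
    · funext x
      exact mul_left_cancel (a := s) (congrFun e' x)
  mul_right_cancel := by
    rintro ⟨f, hf⟩ ⟨g, hg⟩ ⟨h, hh⟩ e
    have e' : g * f = h * f := congrArg Subtype.val e
    apply Subtype.ext
    rcases hf with rfl | ⟨s, rfl⟩
    · simpa using e'
    · have e2 : g (s * s) = h (s * s) := congrFun e' s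
      rcases hg with rfl | ⟨a, rfl⟩ <;> rcases hh with rfl | ⟨b, rfl⟩
      · rfl
      · exact (lm_one e2.symm).symm
      · exact lm_one e2
      · exact congrArg lm (mul_right_cancel e2)

def gen (A : Finset S) : A → LM S := fun a => ⟨lm (a : S), Or.inr ⟨a, rfl⟩⟩

omit [IsCancelMul S] in
lemma ev_gen (A : Finset S) (u : FreeSemigroup A) :
    (ev (gen A) (u.head :: u.tail)).1 =
      lm (FreeSemigroup.lift (fun a : A => (a : S)) u) := by
  induction u using FreeSemigroup.recOnMul with
  | ih1 a => simp [gen]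
  | ih2 a u _ ih =>
    rw [map_mul, lm_mul, ← ih]
    simp [gen]

theorem dcf_semigroup (A : Finset S) (h : (wordProblem A).IsContextFree) :
    IsDCF (wordProblem A) := by
  have := LM_cancel (S := S)
  refine dcf_monoid (g := gen A) (fun w => ?_) h
  constructor
  · rintro ⟨u, v, e, rfl⟩
    refine ⟨u.head :: u.tail, v.head :: v.tail, by simp, by simp, Subtype.ext ?_, rfl⟩
    rw [ev_gen, ev_gen, e]
  · rintro ⟨u, v, hu, hv, e, rfl⟩
    obtain ⟨a, u, rfl⟩ := List.exists_cons_of_ne_nil hu
    obtain ⟨b, v, rfl⟩ := List.exists_cons_of_ne_nil hv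
    refine ⟨⟨a, u⟩, ⟨b, v⟩, lm_inj ?_, rfl⟩
    rw [← ev_gen, ← ev_gen]
    exact congrArg Subtype.val e

end Pool.Agent.Lib.MP_dd8e80_al
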